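import Pool.Agent.Y851.PS.G10

/-! Products of affine functions of a kernel with small cut norm, and large deviations. -/

set_option autoImplicit false

namespace Pool.Agent.K4H50.ED
open Finset
open Pool.Agent.Y851.PS

section
variable {α β : Type} {A : Finset α} {C : Finset β} {W : α → β → ℝ}

/-- **products over tuples** -/
theorem aff_tuples {δ M : ℝ} (hM : 1 ≤ M) (h : Cut A C W δ) (p q : β → ℝ)
    (h0 : ∀ a ∈ A, ∀ c ∈ C, 0 ≤ p c + q c * W a c) (h1 : ∀ a ∈ A, ∀ c ∈ C, p c + q c * W a c ≤ M)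
    (hq : ∀ c ∈ C, |q c| ≤ M) (hm0 : ∀ c ∈ C, 0 ≤ p c + q c) (hm1 : ∀ c ∈ C, p c + q c ≤ M) (n : ℕ) :
    ∑ y ∈ Fintype.piFinset (fun _ : Fin n => C), |∑ a ∈ A, ∏ j, (p (y j) + q (y j) * W a (y j)) - A.card * ∏ j, (p (y j) + q (y j))| ≤
      2 * n * M ^ n * δ * (A.card * (C.card : ℝ) ^ n) := by
  induction n with
  | zero => simp
  | succ n ih =>
    rw [sum_cons]
    have hM0 : 0 ≤ M := by linarith
    have key : ∀ y ∈ Fintype.piFinset (fun _ : Fin n => C), ∑ c ∈ C, |∑ a ∈ A, ∏ j : Fin (n + 1),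
        (p ((Fin.cons c y : Fin (n + 1) → β) j) + q ((Fin.cons c y : Fin (n + 1) → β) j) * W a ((Fin.cons c y : Fin (n + 1) → β) j)) -
          A.card * ∏ j : Fin (n + 1), (p ((Fin.cons c y : Fin (n + 1) → β) j) + q ((Fin.cons c y : Fin (n + 1) → β) j))| ≤
        M * (2 * M ^ n * (δ * (A.card * C.card))) + M * (C.card * |∑ a ∈ A, ∏ j, (p (y j) + q (y j) * W a (y j)) - A.card * ∏ j, (p (y j) + q (y j))|) := by
      intro y hy
      rw [Fintype.mem_piFinset] at hy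
      obtain ⟨u, hu⟩ : ∃ u : α → ℝ, ∀ a, u a = ∏ j, (p (y j) + q (y j) * W a (y j)) := ⟨_, fun _ => rfl⟩
      obtain ⟨m, hm⟩ : ∃ m : ℝ, m = ∏ j, (p (y j) + q (y j)) := ⟨_, rfl⟩
      have hu0 : ∀ a ∈ A, 0 ≤ u a := fun a ha => by rw [hu]; exact prod_nonneg fun j _ => h0 a ha _ (hy j)
      have hu1 : ∀ a ∈ A, u a ≤ M ^ n := by
        intro a ha
        rw [hu]
        calc ∏ j, (p (y j) + q (y j) * W a (y j)) ≤ ∏ _j : Fin n, M := prod_le_prod (fun j _ => h0 a ha _ (hy j)) fun j _ => h1 a ha _ (hy j)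
          _ = M ^ n := by simp
      simp_rw [← hu, ← hm]
      have e : ∀ c ∈ C, |∑ a ∈ A, ∏ j : Fin (n + 1),
        (p ((Fin.cons c y : Fin (n + 1) → β) j) + q ((Fin.cons c y : Fin (n + 1) → β) j) * W a ((Fin.cons c y : Fin (n + 1) → β) j)) -
          A.card * ∏ j : Fin (n + 1), (p ((Fin.cons c y : Fin (n + 1) → β) j) + q ((Fin.cons c y : Fin (n + 1) → β) j))| ≤
          M * |∑ a ∈ A, u a * (W a c - 1)| + M * |∑ a ∈ A, u a - A.card * m| := by
        intro c hc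
        have e1 : ∑ a ∈ A, ∏ j : Fin (n + 1),
            (p ((Fin.cons c y : Fin (n + 1) → β) j) + q ((Fin.cons c y : Fin (n + 1) → β) j) * W a ((Fin.cons c y : Fin (n + 1) → β) j)) =
            ∑ a ∈ A, (p c + q c * W a c) * u a := by
          apply sum_congr rfl
          intro a _
          rw [Fin.prod_univ_succ, hu]
          simp
        have e2 : ∏ j : Fin (n + 1), (p ((Fin.cons c y : Fin (n + 1) → β) j) + q ((Fin.cons c y : Fin (n + 1) → β) j)) = (p c + q c) * m := by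
          rw [Fin.prod_univ_succ, hm]
          simp
        have e3 : ∑ a ∈ A, (p c + q c * W a c) * u a = q c * ∑ a ∈ A, u a * (W a c - 1) + (p c + q c) * ∑ a ∈ A, u a := by
          rw [mul_sum, mul_sum, ← sum_add_distrib]
          exact sum_congr rfl fun a _ => by ring
        rw [e1, e2, e3]
        have e4 : q c * ∑ a ∈ A, u a * (W a c - 1) + (p c + q c) * ∑ a ∈ A, u a - A.card * ((p c + q c) * m) =
            q c * ∑ a ∈ A, u a * (W a c - 1) + (p c + q c) * (∑ a ∈ A, u a - A.card * m) := by ring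
        rw [e4]
        refine (abs_add_le _ _).trans ?_
        rw [abs_mul, abs_mul, abs_of_nonneg (hm0 c hc)]
        exact add_le_add (mul_le_mul_of_nonneg_right (hq c hc) (abs_nonneg _)) (mul_le_mul_of_nonneg_right (hm1 c hc) (abs_nonneg _))
      refine (sum_le_sum e).trans ?_
      rw [sum_add_distrib, sum_const, nsmul_eq_mul, ← mul_sum]
      have := cut_abs h u (M ^ n) (by positivity) hu0 hu1
      have h5 := mul_le_mul_of_nonneg_left this hM0
      linarith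
    refine (sum_le_sum key).trans ?_
    rw [sum_add_distrib, sum_const, nsmul_eq_mul, ← mul_sum, ← mul_sum, Fintype.card_piFinset, prod_const, Finset.card_univ, Fintype.card_fin]
    push_cast
    have hmul : M * ((C.card : ℝ) * ∑ y ∈ Fintype.piFinset (fun _ : Fin n => C), |∑ a ∈ A, ∏ j, (p (y j) + q (y j) * W a (y j)) - A.card * ∏ j, (p (y j) + q (y j))|) ≤
        M * (C.card * (2 * n * M ^ n * δ * (A.card * (C.card : ℝ) ^ n))) :=
      mul_le_mul_of_nonneg_left (mul_le_mul_of_nonneg_left ih (Nat.cast_nonneg _)) hM0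
    calc _ ≤ (C.card : ℝ) ^ n * (M * (2 * M ^ n * (δ * (A.card * C.card)))) + M * (C.card * (2 * n * M ^ n * δ * (A.card * (C.card : ℝ) ^ n))) := by
          linarith
      _ = _ := by ring

/-- the exponential and a quadratic polynomial -/
lemma exp_quad {x : ℝ} (hx : |x| ≤ 1) : Real.exp x ≤ 1 + x + x ^ 2 := by
  have h := Real.abs_exp_sub_one_sub_id_le hx
  have := (abs_le.1 h).2
  linarith

/-- the affine majorants -/
lemma chern_up {w L s : ℝ} (hw0 : 0 ≤ w) (hw : w ≤ L) (hs : 0 ≤ s) (hs1 : s ≤ 1) (hsL : s * (L - 1) ≤ 1) :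
    Real.exp (s * (w - 1)) ≤ (1 - s + s ^ 2) + (s + s ^ 2 * (L - 2)) * w := by
  have h1 : |s * (w - 1)| ≤ 1 := by
    rw [abs_le]
    constructor
    · nlinarith
    · nlinarith
  refine (exp_quad h1).trans ?_
  have h2 : 0 ≤ s ^ 2 * (w * (L - w)) := mul_nonneg (sq_nonneg s) (mul_nonneg hw0 (by linarith))
  nlinarith

lemma chern_low {w L s : ℝ} (hw0 : 0 ≤ w) (hw : w ≤ L) (hs : 0 ≤ s) (hs1 : s ≤ 1) (hsL : s * (L - 1) ≤ 1) :
    Real.exp (-(s * (w - 1))) ≤ (1 + s + s ^ 2) + (-s + s ^ 2 * (L - 2)) * w := by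
  have h1 : |-(s * (w - 1))| ≤ 1 := by
    rw [abs_neg, abs_le]
    constructor
    · nlinarith
    · nlinarith
  refine (exp_quad h1).trans ?_
  have h2 : 0 ≤ s ^ 2 * (w * (L - w)) := mul_nonneg (sq_nonneg s) (mul_nonneg hw0 (by linarith))
  nlinarith

/-- the affine majorants are bounded -/
lemma chern_bd {w L s : ℝ} (hw0 : 0 ≤ w) (hw : w ≤ L) (hL : 2 ≤ L) (hs : 0 ≤ s) (hs1 : s ≤ 1) (hsL : s * (L - 1) ≤ 1) :
    (1 - s + s ^ 2) + (s + s ^ 2 * (L - 2)) * w ≤ 3 ∧ (1 + s + s ^ 2) + (-s + s ^ 2 * (L - 2)) * w ≤ 3 := by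
  have h1 : s * (w - 1) ≤ 1 := by nlinarith
  have h2 : s ^ 2 * ((L - 2) * w + 1) ≤ 1 := by
    have h3 : (L - 2) * w + 1 ≤ (L - 1) ^ 2 := by nlinarith
    have h4 : (s * (L - 1)) ^ 2 ≤ 1 := pow_le_one₀ (mul_nonneg hs (by linarith)) hsL
    calc s ^ 2 * ((L - 2) * w + 1) ≤ s ^ 2 * (L - 1) ^ 2 := mul_le_mul_of_nonneg_left h3 (sq_nonneg s)
      _ = (s * (L - 1)) ^ 2 := by ring
      _ ≤ 1 := h4
  have h3 : -(s * (w - 1)) ≤ 1 := by nlinarith
  constructor
  · nlinarith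
  · nlinarith

/-- **large deviations at a good tuple** -/
theorem tail_bound {ι : Type} (S : Finset ι) (N : ℕ) (hN : S.card ≤ N) (A : Finset α) (w : α → ι → ℝ) (L s t ε : ℝ) (hL : 2 ≤ L) (hs : 0 ≤ s) (hs1 : s ≤ 1)
    (hsL : s * (L - 1) ≤ 1) (hst : 0 ≤ t) (hw0 : ∀ a ∈ A, ∀ j ∈ S, 0 ≤ w a j) (hw : ∀ a ∈ A, ∀ j ∈ S, w a j ≤ L)
    (h1 : ∑ a ∈ A, ∏ j ∈ S, ((1 - s + s ^ 2) + (s + s ^ 2 * (L - 2)) * w a j) ≤ ((1 + s ^ 2 * (L - 1)) ^ S.card + ε) * A.card)
    (h2 : ∑ a ∈ A, ∏ j ∈ S, ((1 + s + s ^ 2) + (-s + s ^ 2 * (L - 2)) * w a j) ≤ ((1 + s ^ 2 * (L - 1)) ^ S.card + ε) * A.card)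
    (hε : 0 ≤ ε) (P : α → Prop) [DecidablePred P] (hP : ∀ a ∈ A, P a → t ≤ |∑ j ∈ S, (w a j - 1)|) :
    ((A.filter P).card : ℝ) ≤ 2 * (Real.exp (s ^ 2 * (L - 1) * N - s * t) + ε) * A.card := by
  have hb : (1 + s ^ 2 * (L - 1)) ^ S.card ≤ Real.exp (s ^ 2 * (L - 1) * N) := by
    have h3 : 0 ≤ s ^ 2 * (L - 1) := mul_nonneg (sq_nonneg s) (by linarith)
    calc (1 + s ^ 2 * (L - 1)) ^ S.card ≤ (Real.exp (s ^ 2 * (L - 1))) ^ S.card := by
          apply pow_le_pow_left₀ (by linarith)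
          have := Real.add_one_le_exp (s ^ 2 * (L - 1))
          linarith
      _ = Real.exp (s ^ 2 * (L - 1) * S.card) := by rw [← Real.exp_nat_mul, mul_comm]
      _ ≤ _ := by
        apply Real.exp_le_exp.2
        apply mul_le_mul_of_nonneg_left _ h3
        exact_mod_cast hN
  have hu : ∀ a ∈ A, Real.exp (s * ∑ j ∈ S, (w a j - 1)) ≤ ∏ j ∈ S, ((1 - s + s ^ 2) + (s + s ^ 2 * (L - 2)) * w a j) := by
    intro a ha
    rw [mul_sum, Real.exp_sum]
    exact prod_le_prod (fun j _ => (Real.exp_pos _).le) fun j hj => chern_up (hw0 a ha j hj) (hw a ha j hj) hs hs1 hsL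
  have hl : ∀ a ∈ A, Real.exp (-(s * ∑ j ∈ S, (w a j - 1))) ≤ ∏ j ∈ S, ((1 + s + s ^ 2) + (-s + s ^ 2 * (L - 2)) * w a j) := by
    intro a ha
    rw [mul_sum, ← sum_neg_distrib, Real.exp_sum]
    exact prod_le_prod (fun j _ => (Real.exp_pos _).le) fun j hj => chern_low (hw0 a ha j hj) (hw a ha j hj) hs hs1 hsL
  have h3 : ((A.filter P).card : ℝ) * Real.exp (s * t) ≤ ∑ a ∈ A, (∏ j ∈ S, ((1 - s + s ^ 2) + (s + s ^ 2 * (L - 2)) * w a j) +
      ∏ j ∈ S, ((1 + s + s ^ 2) + (-s + s ^ 2 * (L - 2)) * w a j)) := by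
    calc ((A.filter P).card : ℝ) * Real.exp (s * t) = ∑ a ∈ A.filter P, Real.exp (s * t) := by rw [sum_const, nsmul_eq_mul]
      _ ≤ ∑ a ∈ A.filter P, (∏ j ∈ S, ((1 - s + s ^ 2) + (s + s ^ 2 * (L - 2)) * w a j) +
          ∏ j ∈ S, ((1 + s + s ^ 2) + (-s + s ^ 2 * (L - 2)) * w a j)) := by
        apply sum_le_sum
        intro a ha
        rw [mem_filter] at ha
        have g1 := hu a ha.1
        have g2 := hl a ha.1
        have g3 := hP a ha.1 ha.2
        have g4 : Real.exp (s * t) ≤ Real.exp (s * |∑ j ∈ S, (w a j - 1)|) := Real.exp_le_exp.2 (mul_le_mul_of_nonneg_left g3 hs)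
        rcases abs_choice (∑ j ∈ S, (w a j - 1)) with g5 | g5
        · rw [g5] at g4
          have := Real.exp_pos (-(s * ∑ j ∈ S, (w a j - 1)))
          linarith
        · rw [g5, mul_neg] at g4
          have := Real.exp_pos (s * ∑ j ∈ S, (w a j - 1))
          linarith
      _ ≤ _ := by
        apply sum_le_sum_of_subset_of_nonneg (filter_subset _ _)
        intro a ha _
        have g1 := hu a ha
        have g2 := hl a ha
        have := Real.exp_pos (s * ∑ j ∈ S, (w a j - 1))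
        have := Real.exp_pos (-(s * ∑ j ∈ S, (w a j - 1)))
        linarith
  rw [sum_add_distrib] at h3
  have hA0 : (0 : ℝ) ≤ A.card := Nat.cast_nonneg _
  have h4 : ((A.filter P).card : ℝ) * Real.exp (s * t) ≤ 2 * ((Real.exp (s ^ 2 * (L - 1) * N) + ε) * A.card) := by
    have h5 := mul_le_mul_of_nonneg_right (add_le_add_left hb ε) hA0
    have h5' : ((1 + s ^ 2 * (L - 1)) ^ S.card + ε) * (A.card : ℝ) ≤ (Real.exp (s ^ 2 * (L - 1) * N) + ε) * A.card :=
      mul_le_mul_of_nonneg_right (by linarith) hA0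
    linarith
  have h5 : Real.exp (s ^ 2 * (L - 1) * N - s * t) = Real.exp (s ^ 2 * (L - 1) * N) / Real.exp (s * t) := Real.exp_sub _ _
  have h6 : 1 ≤ Real.exp (s * t) := Real.one_le_exp (mul_nonneg hs hst)
  have h7 : (0 : ℝ) < Real.exp (s * t) := Real.exp_pos _
  rw [← le_div_iff₀ h7] at h4
  refine h4.trans ?_
  rw [h5, div_le_iff₀ h7]
  have e : 2 * (Real.exp (s ^ 2 * (L - 1) * N) / Real.exp (s * t) + ε) * A.card * Real.exp (s * t) =
      2 * ((Real.exp (s ^ 2 * (L - 1) * N) + ε * Real.exp (s * t)) * A.card) := by field_simp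
  rw [e]
  have h8 : ε ≤ ε * Real.exp (s * t) := le_mul_of_one_le_right hε h6
  have h9 := mul_le_mul_of_nonneg_right h8 hA0
  nlinarith

end

end Pool.Agent.K4H50.ED
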