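import Pool.Agent.K4H50.ED.B1

/-! Good tuples for a kernel with small cut norm which is essentially bounded. -/

set_option autoImplicit false

namespace Pool.Agent.K4H50.ED
open Finset
open Pool.Agent.Y851.PS

section
variable {α β : Type}

open Classical in
/-- truncation -/
lemma cut_min {A : Finset α} {C : Finset β} {W : α → β → ℝ} {δ' L : ℝ} (hW : ∀ a ∈ A, ∀ c ∈ C, 0 ≤ W a c) (hL : 0 ≤ L)
    (hcut : Cut A C W δ')
    (hR : ∑ a ∈ A, ∑ c ∈ C, (if L < W a c then W a c else 0) ≤ δ' * (A.card * C.card)) :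
    Cut A C (fun a c => min (W a c) L) (2 * δ') := by
  intro A' hA' C' hC'
  have h1 := hcut A' hA' C' hC'
  have h2 : |∑ a ∈ A', ∑ c ∈ C', (W a c - min (W a c) L)| ≤ δ' * (A.card * C.card) := by
    have hle : ∀ a c, 0 ≤ W a c - min (W a c) L := fun a c => sub_nonneg.2 (min_le_left _ _)
    rw [abs_of_nonneg (sum_nonneg fun a _ => sum_nonneg fun c _ => hle a c)]
    refine le_trans ?_ hR
    calc ∑ a ∈ A', ∑ c ∈ C', (W a c - min (W a c) L) ≤ ∑ a ∈ A', ∑ c ∈ C, (W a c - min (W a c) L) :=
          sum_le_sum fun a _ => sum_le_sum_of_subset_of_nonneg hC' fun c _ _ => hle a c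
      _ ≤ ∑ a ∈ A, ∑ c ∈ C, (W a c - min (W a c) L) :=
          sum_le_sum_of_subset_of_nonneg hA' fun a _ _ => sum_nonneg fun c _ => hle a c
      _ ≤ _ := by
        apply sum_le_sum
        intro a ha
        apply sum_le_sum
        intro c hc
        split_ifs with h
        · rw [min_eq_right h.le]; linarith
        · rw [min_eq_left (not_lt.1 h)]; linarith
  have e : ∑ a ∈ A', ∑ c ∈ C', (min (W a c) L - 1) = ∑ a ∈ A', ∑ c ∈ C', (W a c - 1) - ∑ a ∈ A', ∑ c ∈ C', (W a c - min (W a c) L) := by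
    rw [← sum_sub_distrib]
    apply sum_congr rfl
    intro a _
    rw [← sum_sub_distrib]
    exact sum_congr rfl fun c _ => by ring
  rw [e]
  have h3 := abs_sub (∑ a ∈ A', ∑ c ∈ C', (W a c - 1)) (∑ a ∈ A', ∑ c ∈ C', (W a c - min (W a c) L))
  linarith

open Classical in
/-- **Good tuples.** -/
theorem good (n : ℕ) (J : ℕ) (L s t ε δ' : ℝ) (hL : 2 ≤ L) (hs : 0 ≤ s) (hs1 : s ≤ 1)
    (hsL : s * (L - 1) ≤ 1) (ht : 0 ≤ t) (hε : 0 < ε) (hδ' : 0 ≤ δ') (A : Finset α) (C : Finset β) (W : α → β → ℝ)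
    (hW : ∀ a ∈ A, ∀ c ∈ C, 0 ≤ W a c) (hcut : Cut A C W δ')
    (hR : ∑ a ∈ A, ∑ c ∈ C, (if L < W a c then W a c else 0) ≤ δ' * (A.card * C.card)) (cl : β → ℕ) :
    (((Fintype.piFinset (fun _ : Fin n => C)).filter (fun y => ¬ (
      ((A.filter (fun a => ∀ j, W a (y j) = 0)).card : ℝ) ≤ ((1 - 1 / L) ^ n + ε) * A.card ∧
      ∀ i < J, ∑ a ∈ A.filter (fun a => t ≤ |∑ j ∈ univ.filter (fun j => cl (y j) = i), (W a (y j) - 1)|),
        |∑ j ∈ univ.filter (fun j => cl (y j) = i), (W a (y j) - 1)| ≤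
        (n * (L + 1) * (2 * (Real.exp (s ^ 2 * (L - 1) * n - s * t) + ε)) + (n * (L + 1) + 1) * ε) * A.card))).card : ℝ) ≤
      (2 * J + 2) * (4 * n * 3 ^ n * δ') / ε * (C.card : ℝ) ^ n := by
  have hL0 : 0 < L := by linarith
  by_cases hA : A.card = 0
  · have hA' : A = ∅ := card_eq_zero.1 hA
    subst hA'
    rw [filter_false_of_mem]
    · simp only [card_empty, Nat.cast_zero]
      positivity
    · intro y _
      rw [not_not]
      simp
  have hA0 : (0 : ℝ) < A.card := by exact_mod_cast Nat.pos_of_ne_zero hA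
  obtain ⟨V, hV⟩ : ∃ V : α → β → ℝ, ∀ a c, V a c = min (W a c) L := ⟨_, fun _ _ => rfl⟩
  have hcutV : Cut A C V (2 * δ') := by
    have := cut_min hW hL0.le hcut hR
    have e : V = fun a c => min (W a c) L := by ext a c; exact hV a c
    rw [e]; exact this
  have hV0 : ∀ a ∈ A, ∀ c ∈ C, 0 ≤ V a c := fun a ha c hc => by rw [hV]; exact le_min (hW a ha c hc) hL0.le
  have hV1 : ∀ a c, V a c ≤ L := fun a c => by rw [hV]; exact min_le_right _ _
  have hcardn : ((Fintype.piFinset (fun _ : Fin n => C)).card : ℝ) = (C.card : ℝ) ^ n := by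
    rw [Fintype.card_piFinset, prod_const, Finset.card_univ, Fintype.card_fin]
    push_cast
    rfl
  -- parameters of the affine functions
  have hs2 : s ^ 2 * (L - 1) ≤ s := by
    calc s ^ 2 * (L - 1) = s * (s * (L - 1)) := by ring
      _ ≤ s * 1 := mul_le_mul_of_nonneg_left hsL hs
      _ = s := mul_one s
  have hs3 : 0 ≤ s ^ 2 * (L - 2) := mul_nonneg (sq_nonneg s) (by linarith)
  have hs4 : s ^ 2 * (L - 2) ≤ s := by
    have : s ^ 2 * (L - 2) = s ^ 2 * (L - 1) - s ^ 2 := by ring
    have := sq_nonneg s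
    linarith
  -- the three deviations
  obtain ⟨pu, hpu⟩ : ∃ pu : ℕ → β → ℝ, ∀ i c, pu i c = if cl c = i then 1 - s + s ^ 2 else 1 := ⟨_, fun _ _ => rfl⟩
  obtain ⟨qu, hqu⟩ : ∃ qu : ℕ → β → ℝ, ∀ i c, qu i c = if cl c = i then s + s ^ 2 * (L - 2) else 0 := ⟨_, fun _ _ => rfl⟩
  obtain ⟨pl, hpl⟩ : ∃ pl : ℕ → β → ℝ, ∀ i c, pl i c = if cl c = i then 1 + s + s ^ 2 else 1 := ⟨_, fun _ _ => rfl⟩
  obtain ⟨ql, hql⟩ : ∃ ql : ℕ → β → ℝ, ∀ i c, ql i c = if cl c = i then -s + s ^ 2 * (L - 2) else 0 := ⟨_, fun _ _ => rfl⟩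
  obtain ⟨Du, hDu⟩ : ∃ Du : ℕ → (Fin n → β) → ℝ, ∀ i y, Du i y =
      |∑ a ∈ A, ∏ j, (pu i (y j) + qu i (y j) * V a (y j)) - A.card * ∏ j, (pu i (y j) + qu i (y j))| := ⟨_, fun _ _ => rfl⟩
  obtain ⟨Dl, hDl⟩ : ∃ Dl : ℕ → (Fin n → β) → ℝ, ∀ i y, Dl i y =
      |∑ a ∈ A, ∏ j, (pl i (y j) + ql i (y j) * V a (y j)) - A.card * ∏ j, (pl i (y j) + ql i (y j))| := ⟨_, fun _ _ => rfl⟩
  obtain ⟨Dn, hDn⟩ : ∃ Dn : (Fin n → β) → ℝ, ∀ y, Dn y =
      |∑ a ∈ A, ∏ j, (1 + (-(1 / L)) * V a (y j)) - A.card * ∏ _j : Fin n, (1 + (-(1 / L)) : ℝ)| := ⟨_, fun _ => rfl⟩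
  obtain ⟨Rr, hRr⟩ : ∃ Rr : (Fin n → β) → ℝ, ∀ y, Rr y = ∑ a ∈ A, ∑ j, (if L < W a (y j) then W a (y j) else 0) := ⟨_, fun _ => rfl⟩
  obtain ⟨K, hK⟩ : ∃ K : ℝ, K = 4 * n * 3 ^ n * δ' := ⟨_, rfl⟩
  have hK0 : 0 ≤ K := by rw [hK]; positivity
  obtain ⟨Z, hZ⟩ : ∃ Z : ℝ, Z = A.card * (C.card : ℝ) ^ n := ⟨_, rfl⟩
  have hZ0 : 0 ≤ Z := by rw [hZ]; positivity
  have hDu1 : ∀ i, ∑ y ∈ Fintype.piFinset (fun _ : Fin n => C), Du i y ≤ K * Z := by
    intro i
    have h := aff_tuples (A := A) (C := C) (W := V) (δ := 2 * δ') (M := 3) (by norm_num) hcutV (pu i) (qu i) ?_ ?_ ?_ ?_ ?_ n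
    · simp_rw [hDu]
      refine h.trans (le_of_eq ?_)
      rw [hK, hZ]; ring
    · intro a ha c hc
      rw [hpu, hqu]
      split_ifs
      · exact (Real.exp_pos _).le.trans (chern_up (hV0 a ha c hc) (hV1 a c) hs hs1 hsL)
      · linarith
    · intro a ha c hc
      rw [hpu, hqu]
      split_ifs
      · exact (chern_bd (hV0 a ha c hc) (hV1 a c) hL hs hs1 hsL).1
      · linarith
    · intro c _
      rw [hqu]
      split_ifs
      · rw [abs_of_nonneg (by linarith)]; linarith
      · rw [abs_zero]; norm_num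
    · intro c _
      rw [hpu, hqu]
      split_ifs
      · have := sq_nonneg s
        linarith
      · norm_num
    · intro c _
      rw [hpu, hqu]
      split_ifs
      · have e : 1 - s + s ^ 2 + (s + s ^ 2 * (L - 2)) = 1 + s ^ 2 * (L - 1) := by ring
        rw [e]; linarith
      · norm_num
  have hDl1 : ∀ i, ∑ y ∈ Fintype.piFinset (fun _ : Fin n => C), Dl i y ≤ K * Z := by
    intro i
    have h := aff_tuples (A := A) (C := C) (W := V) (δ := 2 * δ') (M := 3) (by norm_num) hcutV (pl i) (ql i) ?_ ?_ ?_ ?_ ?_ n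
    · simp_rw [hDl]
      refine h.trans (le_of_eq ?_)
      rw [hK, hZ]; ring
    · intro a ha c hc
      rw [hpl, hql]
      split_ifs
      · exact (Real.exp_pos _).le.trans (chern_low (hV0 a ha c hc) (hV1 a c) hs hs1 hsL)
      · linarith
    · intro a ha c hc
      rw [hpl, hql]
      split_ifs
      · exact (chern_bd (hV0 a ha c hc) (hV1 a c) hL hs hs1 hsL).2
      · linarith
    · intro c _
      rw [hql]
      split_ifs
      · rw [abs_le]
        constructor
        · linarith
        · linarith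
      · rw [abs_zero]; norm_num
    · intro c _
      rw [hpl, hql]
      split_ifs
      · have := sq_nonneg s
        linarith
      · norm_num
    · intro c _
      rw [hpl, hql]
      split_ifs
      · have e : 1 + s + s ^ 2 + (-s + s ^ 2 * (L - 2)) = 1 + s ^ 2 * (L - 1) := by ring
        rw [e]; linarith
      · norm_num
  have hDn1 : ∑ y ∈ Fintype.piFinset (fun _ : Fin n => C), Dn y ≤ K * Z := by
    have hL1 : 0 < 1 / L := by positivity
    have hL2 : 1 / L ≤ 1 / 2 := by
      rw [div_le_div_iff₀ hL0 (by norm_num)]; linarith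
    have h := aff_tuples (A := A) (C := C) (W := V) (δ := 2 * δ') (M := 3) (by norm_num) hcutV (fun _ => 1) (fun _ => -(1 / L)) ?_ ?_ ?_ ?_ ?_ n
    · simp_rw [hDn]
      refine h.trans (le_of_eq ?_)
      rw [hK, hZ]; ring
    · intro a ha c hc
      have h1 : 1 / L * V a c ≤ 1 := by
        rw [one_div, inv_mul_le_iff₀ hL0, mul_one]; exact hV1 a c
      linarith
    · intro a ha c hc
      have h1 : 0 ≤ 1 / L * V a c := mul_nonneg hL1.le (hV0 a ha c hc)
      linarith
    · intro c _
      rw [abs_neg, abs_of_pos hL1]; linarith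
    · intro c _
      linarith
    · intro c _
      linarith
  have hRr1 : ∑ y ∈ Fintype.piFinset (fun _ : Fin n => C), Rr y ≤ K * Z := by
    simp_rw [hRr]
    rw [sum_comm]
    have h1 : ∀ a ∈ A, ∑ y ∈ Fintype.piFinset (fun _ : Fin n => C), ∑ j, (if L < W a (y j) then W a (y j) else 0) =
        n * ((C.card : ℝ) ^ (n - 1) * ∑ c ∈ C, (if L < W a c then W a c else 0)) := by
      intro a _
      rw [sum_comm]
      have h2 : ∀ j ∈ (univ : Finset (Fin n)), ∑ y ∈ Fintype.piFinset (fun _ : Fin n => C), (if L < W a (y j) then W a (y j) else 0) =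
          (C.card : ℝ) ^ (n - 1) * ∑ c ∈ C, (if L < W a c then W a c else 0) := fun j _ =>
        sum_coord n j (fun c => if L < W a c then W a c else 0)
      rw [sum_congr rfl h2, sum_const, Finset.card_univ, Fintype.card_fin, nsmul_eq_mul]
    rw [sum_congr rfl h1, ← mul_sum, ← mul_sum]
    rcases Nat.eq_zero_or_pos n with rfl | hn
    · simp only [Nat.cast_zero, zero_mul]
      positivity
    · have h3 : (n : ℝ) * ((C.card : ℝ) ^ (n - 1) * ∑ a ∈ A, ∑ c ∈ C, (if L < W a c then W a c else 0)) ≤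
          n * ((C.card : ℝ) ^ (n - 1) * (δ' * (A.card * C.card))) := by gcongr
      refine h3.trans ?_
      have e : (C.card : ℝ) ^ n = (C.card : ℝ) ^ (n - 1) * C.card := by
        rw [← pow_succ]; congr 1; omega
      rw [hK, hZ, e]
      have h4 : (1 : ℝ) ≤ 4 * 3 ^ n := by
        have : (1 : ℝ) ≤ 3 ^ n := one_le_pow₀ (by norm_num)
        linarith
      calc (n : ℝ) * ((C.card : ℝ) ^ (n - 1) * (δ' * (A.card * C.card))) = 1 * (n * δ' * (A.card * ((C.card : ℝ) ^ (n - 1) * C.card))) := by ring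
        _ ≤ (4 * 3 ^ n) * (n * δ' * (A.card * ((C.card : ℝ) ^ (n - 1) * C.card))) := by gcongr
        _ = _ := by ring
  -- the total deviation
  obtain ⟨T, hT⟩ : ∃ T : (Fin n → β) → ℝ, ∀ y, T y = ∑ i ∈ range J, (Du i y + Dl i y) + (Dn y + Rr y) := ⟨_, fun _ => rfl⟩
  have hDu0 : ∀ i y, 0 ≤ Du i y := fun i y => by rw [hDu]; exact abs_nonneg _
  have hDl0 : ∀ i y, 0 ≤ Dl i y := fun i y => by rw [hDl]; exact abs_nonneg _
  have hDn0 : ∀ y, 0 ≤ Dn y := fun y => by rw [hDn]; exact abs_nonneg _
  have hRr0 : ∀ y ∈ Fintype.piFinset (fun _ : Fin n => C), 0 ≤ Rr y := fun y hy => by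
    rw [Fintype.mem_piFinset] at hy
    rw [hRr]
    refine sum_nonneg fun a ha => sum_nonneg fun j _ => ?_
    split_ifs
    · exact hW a ha _ (hy j)
    · exact le_rfl
  have hS0 : ∀ y, 0 ≤ ∑ i ∈ range J, (Du i y + Dl i y) := fun y => sum_nonneg fun i _ => add_nonneg (hDu0 i y) (hDl0 i y)
  have hT0 : ∀ y ∈ Fintype.piFinset (fun _ : Fin n => C), 0 ≤ T y := fun y hy => by
    rw [hT]; exact add_nonneg (hS0 y) (add_nonneg (hDn0 y) (hRr0 y hy))
  have hTs : ∑ y ∈ Fintype.piFinset (fun _ : Fin n => C), T y ≤ (2 * J + 2) * (K * Z) := by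
    simp_rw [hT]
    rw [sum_add_distrib, sum_add_distrib, sum_comm]
    have h1 : ∑ i ∈ range J, ∑ y ∈ Fintype.piFinset (fun _ : Fin n => C), (Du i y + Dl i y) ≤ J * (2 * (K * Z)) := by
      calc _ ≤ ∑ i ∈ range J, 2 * (K * Z) := by
            apply sum_le_sum
            intro i _
            rw [sum_add_distrib]
            have := hDu1 i
            have := hDl1 i
            linarith
        _ = _ := by rw [sum_const, card_range, nsmul_eq_mul]
    linarith
  have hmk := markov (Fintype.piFinset (fun _ : Fin n => C)) T hT0 ((2 * J + 2) * (K * Z)) (ε * A.card) (by positivity) hTs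
    (fun y => ¬ (
      ((A.filter (fun a => ∀ j, W a (y j) = 0)).card : ℝ) ≤ ((1 - 1 / L) ^ n + ε) * A.card ∧
      ∀ i < J, ∑ a ∈ A.filter (fun a => t ≤ |∑ j ∈ univ.filter (fun j => cl (y j) = i), (W a (y j) - 1)|),
        |∑ j ∈ univ.filter (fun j => cl (y j) = i), (W a (y j) - 1)| ≤
        (n * (L + 1) * (2 * (Real.exp (s ^ 2 * (L - 1) * n - s * t) + ε)) + (n * (L + 1) + 1) * ε) * A.card)) ?_
  · refine hmk.trans (le_of_eq ?_)
    rw [hZ, hK]
    field_simp
  -- a tuple with small deviation is good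
  intro y hy hbad
  by_contra hcon
  push Not at hcon
  apply hbad
  have hyC := (Fintype.mem_piFinset.1 hy)
  have hTy : ∀ i < J, Du i y ≤ ε * A.card ∧ Dl i y ≤ ε * A.card := by
    intro i hi
    have h1 : Du i y + Dl i y ≤ ∑ i ∈ range J, (Du i y + Dl i y) :=
      single_le_sum (f := fun i => Du i y + Dl i y) (fun i _ => add_nonneg (hDu0 i y) (hDl0 i y)) (mem_range.2 hi)
    rw [hT] at hcon
    have := hDu0 i y
    have := hDl0 i y
    have := hDn0 y
    have := hRr0 y hy
    constructor <;> linarith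
  have hDny : Dn y ≤ ε * A.card := by
    rw [hT] at hcon
    have := hS0 y
    have := hRr0 y hy
    linarith
  have hRry : Rr y ≤ ε * A.card := by
    rw [hT] at hcon
    have := hS0 y
    have := hDn0 y
    linarith
  refine ⟨?_, fun i hi => ?_⟩
  · -- no primes
    rw [hDn] at hDny
    have h1 := (abs_le.1 hDny).2
    rw [prod_const, Finset.card_univ, Fintype.card_fin] at h1
    have e : (1 + -(1 / L) : ℝ) = 1 - 1 / L := by ring
    rw [e] at h1
    have h2 : ((A.filter (fun a => ∀ j, W a (y j) = 0)).card : ℝ) ≤ ∑ a ∈ A, ∏ j, (1 + -(1 / L) * V a (y j)) := by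
      calc ((A.filter (fun a => ∀ j, W a (y j) = 0)).card : ℝ) = ∑ a ∈ A.filter (fun a => ∀ j, W a (y j) = 0), ∏ j : Fin n, (1 + -(1 / L) * V a (y j)) := by
            rw [card_eq_sum_ones, Nat.cast_sum]
            apply sum_congr rfl
            intro a ha
            rw [mem_filter] at ha
            rw [prod_congr rfl (g := fun _ => (1 : ℝ)), prod_const_one, Nat.cast_one]
            intro j _
            rw [hV, ha.2 j, min_eq_left hL0.le]
            ring
        _ ≤ _ := by
          apply sum_le_sum_of_subset_of_nonneg (filter_subset _ _)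
          intro a ha _
          refine prod_nonneg fun j _ => ?_
          have h1 : 1 / L * V a (y j) ≤ 1 := by
            rw [one_div, inv_mul_le_iff₀ hL0, mul_one]; exact hV1 a (y j)
          linarith
    calc _ ≤ _ := h2
      _ ≤ A.card * (1 - 1 / L) ^ n + ε * A.card := by linarith
      _ = _ := by ring
  · -- large deviations
    obtain ⟨S, hS⟩ : ∃ S : Finset (Fin n), S = univ.filter (fun j => cl (y j) = i) := ⟨_, rfl⟩
    rw [← hS]
    have hScard : S.card ≤ n := by
      have := card_le_univ S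
      rwa [Fintype.card_fin] at this
    have hSr : (S.card : ℝ) ≤ n := by exact_mod_cast hScard
    obtain ⟨h1, h2⟩ := hTy i hi
    rw [hDu] at h1
    rw [hDl] at h2
    have e1 : ∀ a, ∏ j, (pu i (y j) + qu i (y j) * V a (y j)) = ∏ j ∈ S, ((1 - s + s ^ 2) + (s + s ^ 2 * (L - 2)) * V a (y j)) := by
      intro a
      rw [hS, prod_filter]
      apply prod_congr rfl
      intro j _
      rw [hpu, hqu]
      split_ifs
      · rfl
      · ring
    have e2 : ∏ j, (pu i (y j) + qu i (y j)) = (1 + s ^ 2 * (L - 1)) ^ S.card := by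
      rw [← prod_const, hS, prod_filter]
      apply prod_congr rfl
      intro j _
      rw [hpu, hqu]
      split_ifs
      · ring
      · ring
    have e3 : ∀ a, ∏ j, (pl i (y j) + ql i (y j) * V a (y j)) = ∏ j ∈ S, ((1 + s + s ^ 2) + (-s + s ^ 2 * (L - 2)) * V a (y j)) := by
      intro a
      rw [hS, prod_filter]
      apply prod_congr rfl
      intro j _
      rw [hpl, hql]
      split_ifs
      · rfl
      · ring
    have e4 : ∏ j, (pl i (y j) + ql i (y j)) = (1 + s ^ 2 * (L - 1)) ^ S.card := by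
      rw [← prod_const, hS, prod_filter]
      apply prod_congr rfl
      intro j _
      rw [hpl, hql]
      split_ifs
      · ring
      · ring
    simp_rw [e1] at h1
    rw [e2] at h1
    simp_rw [e3] at h2
    rw [e4] at h2
    have g1 := (abs_le.1 h1).2
    have g2 := (abs_le.1 h2).2
    have htail := tail_bound S n hScard A (fun a j => V a (y j)) L s t ε hL hs hs1 hsL ht
      (fun a ha j _ => hV0 a ha _ (hyC j)) (fun a _ j _ => hV1 a _)
      (by
        calc _ ≤ A.card * (1 + s ^ 2 * (L - 1)) ^ S.card + ε * A.card := by linarith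
          _ = _ := by ring)
      (by
        calc _ ≤ A.card * (1 + s ^ 2 * (L - 1)) ^ S.card + ε * A.card := by linarith
          _ = _ := by ring)
      hε.le (fun a => t ≤ |∑ j ∈ S, (V a (y j) - 1)|) (fun a _ h => h)
    -- split according to whether all the values are small
    obtain ⟨F, hF⟩ : ∃ F : α → ℝ, ∀ a, F a = |∑ j ∈ S, (W a (y j) - 1)| := ⟨_, fun _ => rfl⟩
    simp_rw [← hF]
    have hpt : ∀ a ∈ A, (if t ≤ F a then F a else 0) ≤ n * (L + 1) * (if t ≤ |∑ j ∈ S, (V a (y j) - 1)| then 1 else 0) +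
        (n * (L + 1) + 1) * ∑ j, (if L < W a (y j) then W a (y j) else 0) := by
      intro a ha
      have hn0 : (0 : ℝ) ≤ n := Nat.cast_nonneg n
      have hnL : 0 ≤ (n : ℝ) * (L + 1) := by positivity
      have hQ0 : 0 ≤ ∑ j, (if L < W a (y j) then W a (y j) else 0) := by
        refine sum_nonneg fun j _ => ?_
        split_ifs
        · exact hW a ha _ (hyC j)
        · exact le_rfl
      by_cases hall : ∀ j, W a (y j) ≤ L
      · have e5 : ∀ j, V a (y j) = W a (y j) := fun j => by rw [hV, min_eq_left (hall j)]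
        simp_rw [e5]
        rw [← hF]
        by_cases ht2 : t ≤ F a
        · rw [if_pos ht2, if_pos ht2, mul_one]
          have h5 : F a ≤ n * (L + 1) := by
            rw [hF]
            calc |∑ j ∈ S, (W a (y j) - 1)| ≤ ∑ j ∈ S, |W a (y j) - 1| := abs_sum_le_sum_abs _ _
              _ ≤ ∑ j ∈ S, (L + 1) := by
                apply sum_le_sum
                intro j _
                have g3 := hW a ha _ (hyC j)
                have g4 := hall j
                rw [abs_le]
                constructor <;> linarith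
              _ = S.card * (L + 1) := by rw [sum_const, nsmul_eq_mul]
              _ ≤ n * (L + 1) := mul_le_mul_of_nonneg_right hSr (by linarith)
          have : 0 ≤ (n * (L + 1) + 1) * ∑ j, (if L < W a (y j) then W a (y j) else 0) := mul_nonneg (by linarith) hQ0
          linarith
        · rw [if_neg ht2, if_neg ht2, mul_zero]
          have : 0 ≤ (n * (L + 1) + 1) * ∑ j, (if L < W a (y j) then W a (y j) else 0) := mul_nonneg (by linarith) hQ0
          linarith
      · push Not at hall
        obtain ⟨j0, hj0⟩ := hall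
        have h6 : 1 ≤ ∑ j, (if L < W a (y j) then W a (y j) else 0) := by
          have h7 : (if L < W a (y j0) then W a (y j0) else 0) ≤ ∑ j, (if L < W a (y j) then W a (y j) else 0) :=
            single_le_sum (f := fun j => if L < W a (y j) then W a (y j) else 0) (fun j _ => by
              split_ifs
              · exact hW a ha _ (hyC j)
              · exact le_rfl) (mem_univ j0)
          rw [if_pos hj0] at h7
          linarith
        have h8 : F a ≤ n * (L + 1) + ∑ j, (if L < W a (y j) then W a (y j) else 0) := by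
          rw [hF]
          calc |∑ j ∈ S, (W a (y j) - 1)| ≤ ∑ j ∈ S, |W a (y j) - 1| := abs_sum_le_sum_abs _ _
            _ ≤ ∑ j ∈ S, ((L + 1) + (if L < W a (y j) then W a (y j) else 0)) := by
              apply sum_le_sum
              intro j _
              have g3 := hW a ha _ (hyC j)
              split_ifs with g4
              · rw [abs_le]
                constructor <;> linarith
              · push Not at g4
                rw [abs_le]
                constructor <;> linarith
            _ = S.card * (L + 1) + ∑ j ∈ S, (if L < W a (y j) then W a (y j) else 0) := by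
              rw [sum_add_distrib, sum_const, nsmul_eq_mul]
            _ ≤ n * (L + 1) + ∑ j, (if L < W a (y j) then W a (y j) else 0) := by
              apply add_le_add
              · exact mul_le_mul_of_nonneg_right hSr (by linarith)
              · apply sum_le_sum_of_subset_of_nonneg (subset_univ _)
                intro j _ _
                split_ifs
                · exact hW a ha _ (hyC j)
                · exact le_rfl
        have h9 : n * (L + 1) ≤ n * (L + 1) * ∑ j, (if L < W a (y j) then W a (y j) else 0) := le_mul_of_one_le_right hnL h6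
        have h10 : (if t ≤ F a then F a else 0) ≤ F a := by
          split_ifs
          · exact le_rfl
          · rw [hF]; exact abs_nonneg _
        have h11 : 0 ≤ n * (L + 1) * (if t ≤ |∑ j ∈ S, (V a (y j) - 1)| then (1 : ℝ) else 0) := by
          apply mul_nonneg hnL
          split_ifs
          · norm_num
          · exact le_rfl
        nlinarith
    rw [sum_filter]
    refine (sum_le_sum hpt).trans ?_
    rw [sum_add_distrib, ← mul_sum, ← mul_sum, ← sum_filter, sum_const, nsmul_eq_mul, mul_one, ← hRr]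
    have hn0 : (0 : ℝ) ≤ n := Nat.cast_nonneg n
    have hnL : 0 ≤ (n : ℝ) * (L + 1) := by positivity
    have k1 := mul_le_mul_of_nonneg_left htail hnL
    have k2 := mul_le_mul_of_nonneg_left hRry (show 0 ≤ (n : ℝ) * (L + 1) + 1 by linarith)
    calc _ ≤ _ := add_le_add k1 k2
      _ = _ := by ring

end

end Pool.Agent.K4H50.ED
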