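import Pool.Agent.R516.Stm
import Pool.Agent.Y851.PT.P6

/-! Windows with too many primes contribute little. -/

set_option autoImplicit false

namespace Pool.Agent.K4H50.ED
open Finset Filter
open Pool.Agent.Y851.PT
open Pool.Agent.R516

open Classical in
/-- **heavy windows are negligible** -/
theorem trunc (hU : St_U) (ε β ρ B δ' η : ℝ) (hε : 0 < ε) (hβ : 0 < β) (hρ : 0 < ρ) (hB : 0 ≤ B) (hδ' : 0 < δ') (hη : 0 < η) :
    ∀ᶠ X : ℝ in atTop, ∀ θ h : ℝ, η * Real.log X ^ 22 ≤ h → h ≤ X ^ (1 - ρ) → ∀ (A : Finset ℕ) (C : Finset ℝ),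
    (∀ a ∈ A, 1 ≤ a ∧ (a : ℝ) ≤ X ^ θ) → (∀ a ∈ A, β * X ^ θ ≤ (a : ℝ)) → SpH B h θ X C →
    ∑ a ∈ A, ∑ c ∈ C, (if 18 / 5 + ε < ZH h (a * c) then ZH h (a * c) else 0) ≤ δ' * (A.card * C.card) := by
  obtain ⟨κ, hκ, N₀, hN₀⟩ := hU (ε / 2) (by positivity)
  have hev1 : ∀ᶠ X : ℝ in atTop, (N₀ : ℝ) + 1 ≤ X := eventually_ge_atTop _
  have hev2 : ∀ᶠ X : ℝ in atTop, 1 ≤ η * Real.log X ^ 22 := by
    have : Tendsto (fun X : ℝ => η * Real.log X ^ 22) atTop atTop :=
      ((tendsto_pow_atTop (by norm_num)).comp Real.tendsto_log_atTop).const_mul_atTop hη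
    exact this.eventually_ge_atTop 1
  have hev2' : ∀ᶠ X : ℝ in atTop, 8 * (18 / 5 + ε / 2) / ε ≤ η * Real.log X ^ 22 := by
    have : Tendsto (fun X : ℝ => η * Real.log X ^ 22) atTop atTop :=
      ((tendsto_pow_atTop (by norm_num)).comp Real.tendsto_log_atTop).const_mul_atTop hη
    exact this.eventually_ge_atTop _
  have hev3 : ∀ᶠ X : ℝ in atTop, η * Real.log X ^ 22 ≤ (X / 2) ^ κ := by
    have h := (isLittleO_log_rpow_rpow_atTop (22 : ℝ) hκ).bound (show 0 < 1 / (η * 2 ^ κ) by positivity)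
    filter_upwards [h, eventually_ge_atTop 1] with X hX hX1
    have h1 := Real.log_nonneg hX1
    rw [Real.norm_eq_abs, Real.norm_eq_abs, abs_of_nonneg (by positivity), abs_of_nonneg (by positivity)] at hX
    have e : Real.log X ^ (22 : ℝ) = Real.log X ^ (22 : ℕ) := by
      rw [← Real.rpow_natCast]; norm_num
    rw [e] at hX
    have e2 : (X / 2) ^ κ = X ^ κ / 2 ^ κ := Real.div_rpow (by linarith) (by norm_num) κ
    rw [e2]
    calc η * Real.log X ^ 22 ≤ η * (1 / (η * 2 ^ κ) * X ^ κ) := mul_le_mul_of_nonneg_left hX hη.le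
      _ = X ^ κ / 2 ^ κ := by field_simp
  have hev4 : ∀ᶠ X : ℝ in atTop, 4 * (18 / 5 + ε) / ε ≤ Real.log X := Real.tendsto_log_atTop.eventually_ge_atTop _
  have hev5 : ∀ᶠ X : ℝ in atTop, 4 * B / (β * η * δ') ≤ Real.log X := Real.tendsto_log_atTop.eventually_ge_atTop _
  have hev6 : ∀ᶠ X : ℝ in atTop, 16 * B / (β * δ') * Real.log X ≤ X ^ ρ := by
    have h := (isLittleO_log_rpow_atTop hρ).bound (show 0 < 1 / (16 * B / (β * δ') + 1) by positivity)
    filter_upwards [h, eventually_ge_atTop 1] with X hX hX1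
    have h1 := Real.log_nonneg hX1
    rw [Real.norm_eq_abs, Real.norm_eq_abs, abs_of_nonneg h1, abs_of_nonneg (by positivity)] at hX
    have h2 : 0 ≤ 16 * B / (β * δ') := by positivity
    calc 16 * B / (β * δ') * Real.log X ≤ (16 * B / (β * δ') + 1) * Real.log X := mul_le_mul_of_nonneg_right (by linarith) h1
      _ ≤ (16 * B / (β * δ') + 1) * (1 / (16 * B / (β * δ') + 1) * X ^ ρ) := mul_le_mul_of_nonneg_left hX (by linarith)
      _ = X ^ ρ := by field_simp
  filter_upwards [hev1, hev2, hev2', hev3, hev4, hev5, hev6, eventually_ge_atTop 8]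
    with X h1 h2 h2' h3 h4 h5 h6 hX8 θ h hh1 hh2 A C hA hAβ hC
  have hX0 : 0 < X := by linarith
  have hX1 : 1 < X := by linarith
  obtain ⟨ℓ, hℓ⟩ : ∃ ℓ, ℓ = Real.log X := ⟨_, rfl⟩
  rw [← hℓ] at h2 h2' h3 h4 h5 h6 hh1
  have hℓ1 : 1 ≤ ℓ := by
    rw [hℓ, Real.le_log_iff_exp_le hX0]
    linarith [Real.exp_one_lt_d9]
  have hℓ0 : 0 < ℓ := by linarith
  obtain ⟨N, hN⟩ : ∃ N : ℕ, N = ⌊X⌋₊ := ⟨_, rfl⟩
  have hNX : (N : ℝ) ≤ X := by rw [hN]; exact Nat.floor_le hX0.le
  have hXN : X < N + 1 := by rw [hN]; exact Nat.lt_floor_add_one X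
  have hN₀N : N₀ ≤ N := by
    have : (N₀ : ℝ) < N + 1 := by linarith
    have h7 : N₀ < N + 1 := by exact_mod_cast this
    omega
  have hN2 : X / 2 ≤ N := by linarith
  have hN0 : (0 : ℝ) < N := by linarith
  have hlogN : ℓ - 1 ≤ Real.log N := by
    have h7 : Real.log (X / 2) ≤ Real.log N := Real.log_le_log (by positivity) hN2
    rw [Real.log_div hX0.ne' (by norm_num), ← hℓ] at h7
    have := Real.log_two_lt_d9
    linarith
  have hlogN0 : 0 < Real.log N := Real.log_pos (by linarith)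
  have hlogN1 : Real.log N ≤ ℓ := by rw [hℓ]; exact Real.log_le_log hN0 hNX
  have hh1' : 1 ≤ h := h2.trans hh1
  have hh0 : 0 < h := by linarith
  -- the set of bad integers
  obtain ⟨H₁, hH₁⟩ : ∃ H₁, H₁ = η * ℓ ^ 22 := ⟨_, rfl⟩
  have hcount := hN₀ N hN₀N H₁ (by rw [hH₁]; exact h2) (by
    rw [hH₁]
    exact h3.trans (Real.rpow_le_rpow (by positivity) hN2 hκ.le))
  obtain ⟨Bad, hBad⟩ : ∃ Bad : Finset ℕ, Bad = (Icc 1 N).filter (fun n => n ∈ Hi N H₁ ((18 / 5 + ε / 2) / Real.log N)) ∪ Icc 1 ⌊2 * h + 2⌋₊ := ⟨_, rfl⟩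
  have hBadc : (Bad.card : ℝ) ≤ X / (η * ℓ ^ 2) + 4 * X ^ (1 - ρ) := by
    have g1 : (Bad.card : ℝ) ≤ (((Icc 1 N).filter (fun n => n ∈ Hi N H₁ ((18 / 5 + ε / 2) / Real.log N))).card : ℝ) + ((Icc 1 ⌊2 * h + 2⌋₊).card : ℝ) := by
      rw [hBad]; exact_mod_cast card_union_le _ _
    have g2 : ((Icc 1 ⌊2 * h + 2⌋₊).card : ℝ) ≤ 4 * X ^ (1 - ρ) := by
      rw [Nat.card_Icc, Nat.add_sub_cancel]
      have := Nat.floor_le (show 0 ≤ 2 * h + 2 by linarith)
      linarith
    have g3 : N * (Real.log N) ^ 20 / H₁ ≤ X / (η * ℓ ^ 2) := by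
      rw [hH₁, div_le_div_iff₀ (by positivity) (by positivity)]
      have : N * Real.log N ^ 20 ≤ X * ℓ ^ 20 := by gcongr
      calc N * Real.log N ^ 20 * (η * ℓ ^ 2) ≤ X * ℓ ^ 20 * (η * ℓ ^ 2) := by gcongr
        _ = X * (η * ℓ ^ 22) := by ring
    linarith
  -- the primes of a heavy window are bad
  have hheavy : ∀ a ∈ A, ∀ c ∈ C, 18 / 5 + ε < ZH h (a * c) → PH h (a * c) ⊆ Bad := by
    intro a ha c hc hZ p hp
    have ha0 : (0 : ℝ) < a := by exact_mod_cast (hA a ha).1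
    have hc0 := hC.pos c hc
    obtain ⟨x, hx⟩ : ∃ x, x = (a : ℝ) * c := ⟨_, rfl⟩
    have hx0 : 0 < x := by rw [hx]; positivity
    have hxX : x ≤ X := by
      rw [hx]
      calc (a : ℝ) * c ≤ X ^ θ * X ^ (1 - θ) := mul_le_mul (hA a ha).2 (hC.le c hc) hc0.le (by positivity)
        _ = X := by
          rw [← Real.rpow_add hX0]
          have : θ + (1 - θ) = 1 := by ring
          rw [this, Real.rpow_one]
    rw [← hx] at hZ hp
    have hp' := hp
    rw [mem_PH hx0.le] at hp'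
    obtain ⟨hp1, hp2, hp3⟩ := hp'
    rw [hBad, mem_union]
    by_cases hsmall : (p : ℝ) ≤ 2 * h + 2
    · right
      rw [mem_Icc]
      exact ⟨hp1.one_lt.le, Nat.le_floor hsmall⟩
    · left
      push Not at hsmall
      obtain ⟨b, hb⟩ : ∃ b : ℕ, b = ⌊x⌋₊ := ⟨_, rfl⟩
      have hbx : (b : ℝ) ≤ x := by rw [hb]; exact Nat.floor_le hx0.le
      have hxb : x < b + 1 := by rw [hb]; exact Nat.lt_floor_add_one x
      have hbN : b ≤ N := by rw [hb, hN]; exact Nat.floor_mono hxX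
      have hc1 := Nat.le_ceil h
      have hc2 := Nat.ceil_lt_add_one hh0.le
      have hcb : ⌈h⌉₊ + 1 ≤ b := by
        have : ((⌈h⌉₊ + 1 : ℕ) : ℝ) < b + 1 := by push_cast; linarith
        have h7 : ⌈h⌉₊ + 1 < b + 1 := by exact_mod_cast this
        omega
      obtain ⟨a', ha'⟩ : ∃ a' : ℕ, a' = b - (⌈h⌉₊ + 1) := ⟨_, rfl⟩
      have ha'r : (b : ℝ) - a' = ⌈h⌉₊ + 1 := by
        rw [ha', Nat.cast_sub hcb]; push_cast; ring
      have hpb : p ≤ b := by rw [hb]; exact Nat.le_floor hp3.le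
      have hap : a' < p := by
        have : (a' : ℝ) < p := by linarith
        exact_mod_cast this
      rw [mem_filter, mem_Icc]
      refine ⟨⟨hp1.one_lt.le, hpb.trans hbN⟩, a', b, hap, hpb, hbN, ?_, ?_⟩
      · rw [ha'r, hH₁]; linarith
      · rw [ha'r]
        have hx2 : 2 < x := by linarith
        have hlogx : 0 < Real.log x := Real.log_pos (by linarith)
        have hlogxX : Real.log x ≤ ℓ := by rw [hℓ]; exact Real.log_le_log hx0 hxX
        have hcardle : ((PH h x).card : ℝ) ≤ (pcn a' b : ℝ) := by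
          apply Nat.cast_le.2
          unfold pcn
          apply card_le_card
          intro r hr
          rw [mem_PH hx0.le] at hr
          rw [mem_filter, mem_Ioc]
          refine ⟨⟨?_, ?_⟩, hr.1⟩
          · have : (a' : ℝ) < r := by linarith [hr.2.1]
            exact_mod_cast this
          · rw [hb]; exact Nat.le_floor hr.2.2.le
        have hcard2 : (18 / 5 + ε) * h / ℓ < ((PH h x).card : ℝ) := by
          unfold ZH at hZ
          rw [lt_div_iff₀ hh0] at hZ
          rw [div_lt_iff₀ hℓ0]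
          refine lt_of_lt_of_le hZ ?_
          exact mul_le_mul_of_nonneg_left hlogxX (Nat.cast_nonneg _)
        refine lt_of_le_of_lt ?_ (lt_of_lt_of_le hcard2 hcardle)
        have g1 : (18 / 5 + ε / 2) / Real.log N * ((⌈h⌉₊ : ℝ) + 1) ≤ (18 / 5 + ε / 2) / Real.log N * (h + 2) := by
          apply mul_le_mul_of_nonneg_left _ (by positivity)
          linarith
        refine g1.trans ?_
        rw [div_mul_eq_mul_div, div_le_div_iff₀ hlogN0 hℓ0]
        have g2 : (18 / 5 + ε) * h * (ℓ - 1) ≤ (18 / 5 + ε) * h * Real.log N := mul_le_mul_of_nonneg_left hlogN (by positivity)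
        refine le_trans ?_ g2
        rw [div_le_iff₀ hε] at h4 h2'
        have g3 : (18 / 5 + ε) * h ≤ ε / 4 * h * ℓ := by nlinarith
        have g4 : 2 * (18 / 5 + ε / 2) * ℓ ≤ ε / 4 * h * ℓ := by nlinarith
        nlinarith
  -- the sum over the bad primes
  have hXθ : 0 < X ^ θ := by positivity
  have hrow : ∀ a ∈ A, ∑ c ∈ C, (if 18 / 5 + ε < ZH h (a * c) then ZH h (a * c) else 0) ≤ δ' * C.card := by
    intro a ha
    have ha0 : (0 : ℝ) < a := by exact_mod_cast (hA a ha).1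
    have hterm : ∀ c ∈ C, (if 18 / 5 + ε < ZH h (a * c) then ZH h (a * c) else 0) ≤
        ℓ / h * ∑ p ∈ Bad, (if p ∈ PH h (a * c) then (1 : ℝ) else 0) := by
      intro c hc
      split_ifs with hZ
      · have hc0 := hC.pos c hc
        have hx0 : 0 < (a : ℝ) * c := by positivity
        have hxX : (a : ℝ) * c ≤ X := by
          calc (a : ℝ) * c ≤ X ^ θ * X ^ (1 - θ) := mul_le_mul (hA a ha).2 (hC.le c hc) hc0.le (by positivity)
            _ = X := by
              rw [← Real.rpow_add hX0]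
              have : θ + (1 - θ) = 1 := by ring
              rw [this, Real.rpow_one]
        have hsub := hheavy a ha c hc hZ
        have e : ∑ p ∈ Bad, (if p ∈ PH h (a * c) then (1 : ℝ) else 0) = (PH h (a * c)).card := by
          rw [← sum_filter, sum_const, nsmul_eq_mul, mul_one]
          congr 2
          ext p
          rw [mem_filter]
          exact ⟨fun hp => hp.2, fun hp => ⟨hsub hp, hp⟩⟩
        rw [e]
        unfold ZH
        have hlog : Real.log (a * c) ≤ ℓ := by rw [hℓ]; exact Real.log_le_log hx0 hxX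
        calc ((PH h (a * c)).card : ℝ) * Real.log (a * c) / h ≤ ((PH h (a * c)).card : ℝ) * ℓ / h := by
              apply div_le_div_of_nonneg_right _ hh0.le
              exact mul_le_mul_of_nonneg_left hlog (Nat.cast_nonneg _)
          _ = _ := by ring
      · apply mul_nonneg (by positivity)
        exact sum_nonneg fun p _ => by split_ifs <;> norm_num
    refine (sum_le_sum hterm).trans ?_
    rw [← mul_sum, sum_comm]
    have hp : ∀ p ∈ Bad, ∑ c ∈ C, (if p ∈ PH h (a * c) then (1 : ℝ) else 0) ≤ 2 * B / β * (h / X) * C.card := by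
      intro p _
      have g1 := hC.see hX1 hh0 hB (hA a ha).1 (hA a ha).2 p
      rw [← sum_filter, sum_const, nsmul_eq_mul, mul_one]
      refine g1.trans ?_
      apply mul_le_mul_of_nonneg_right _ (Nat.cast_nonneg _)
      have g2 : h / a ≤ h / (β * X ^ θ) := div_le_div_of_nonneg_left hh0.le (by positivity) (hAβ a ha)
      calc 2 * B * (h / a) * X ^ (θ - 1) ≤ 2 * B * (h / (β * X ^ θ)) * X ^ (θ - 1) := by gcongr
        _ = 2 * B / β * (h / X) := by
          rw [Real.rpow_sub hX0, Real.rpow_one]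
          field_simp
    have g1 : ∑ p ∈ Bad, ∑ c ∈ C, (if p ∈ PH h (a * c) then (1 : ℝ) else 0) ≤ Bad.card * (2 * B / β * (h / X) * C.card) := by
      refine (sum_le_sum hp).trans (le_of_eq ?_)
      rw [sum_const, nsmul_eq_mul]
    calc ℓ / h * ∑ p ∈ Bad, ∑ c ∈ C, (if p ∈ PH h (a * c) then (1 : ℝ) else 0) ≤ ℓ / h * (Bad.card * (2 * B / β * (h / X) * C.card)) := by
          gcongr
      _ = (ℓ / X * Bad.card) * (2 * B / β * C.card) := by field_simp
      _ ≤ (ℓ / X * (X / (η * ℓ ^ 2) + 4 * X ^ (1 - ρ))) * (2 * B / β * C.card) := by gcongr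
      _ = (2 * B / β * (1 / (η * ℓ)) + 2 * B / β * (4 * ℓ / X ^ ρ)) * C.card := by
        have e : X ^ (1 - ρ) = X / X ^ ρ := by rw [Real.rpow_sub hX0, Real.rpow_one]
        rw [e]
        field_simp
      _ ≤ δ' * C.card := by
        apply mul_le_mul_of_nonneg_right _ (Nat.cast_nonneg _)
        have g2 : 2 * B / β * (1 / (η * ℓ)) ≤ δ' / 2 := by
          rw [div_le_iff₀ (by positivity)] at h5
          rw [div_mul_div_comm, mul_one, div_le_div_iff₀ (by positivity) (by norm_num)]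
          nlinarith
        have g3 : 2 * B / β * (4 * ℓ / X ^ ρ) ≤ δ' / 2 := by
          have hXρ : 0 < X ^ ρ := by positivity
          rw [div_mul_div_comm, div_le_div_iff₀ (by positivity) (by norm_num)]
          have g4 : 16 * B / (β * δ') * ℓ * (β * δ') ≤ X ^ ρ * (β * δ') := mul_le_mul_of_nonneg_right h6 (by positivity)
          have e2 : 16 * B / (β * δ') * ℓ * (β * δ') = 16 * B * ℓ := by field_simp
          rw [e2] at g4
          nlinarith
        linarith
  calc _ ≤ ∑ a ∈ A, δ' * (C.card : ℝ) := sum_le_sum hrow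
    _ = _ := by rw [sum_const, nsmul_eq_mul]; ring

end Pool.Agent.K4H50.ED
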