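import Pool.Agent.K4H50.VS.A4
import Pool.Agent.K4H50.ED.B2
import Pool.Agent.K4H50.ED.B3

/-! The facts at the net, and the geometry of good points. -/

set_option autoImplicit false

namespace Pool.Agent.K4H50.ED
open Finset Filter
open Pool.Agent.Y851.PS
open Pool.Agent.Y851.PT
open Pool.Agent.Y851.PU
open Pool.Agent.K4H50.VS
open Pool.Agent.R516 (St_U)

/-- the geometry at one point -/
lemma geo_pt {X P H₀ ρ β η ζ l h y : ℝ} {k1 Q : ℕ} (hX0 : 0 < X) (hP0 : 0 < P) (hH₀ : 0 < H₀) (hβ : 0 < β) (hη : 0 < η) (hη1 : η ≤ 1 / 4)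
    (hζ : 0 < ζ) (hζ1 : ζ ≤ 1) (hQ0 : 1 / (η * β) ≤ Q) (hQ : (Q : ℝ) + 2 ≤ ζ / η ^ 2) (hX1 : 4 / β ≤ X ^ (ρ / 2))
    (hX2 : Real.exp (Real.log 2 * (1 + η) / η) / β ≤ X ^ (1 - ρ / 2)) (hh : h = η * H₀) (hl : l = η * (h / P))
    (hy : X ^ (1 - ρ / 2) / P < y) (hk1 : k1 = ⌈y / l⌉₊ + Q) :
    y + Q * l ≤ k1 * l ∧ (k1 : ℝ) * l ≤ y + (Q + 1) * l ∧ ∀ H : ℝ, H₀ ≤ H → H ≤ X ^ (1 - ρ) → Geo P β η ζ l h H y k1 Q := by
  have hh0 : 0 < h := by rw [hh]; positivity
  have hl0 : 0 < l := by rw [hl]; positivity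
  obtain ⟨Y, hY⟩ : ∃ Y, Y = X ^ (1 - ρ / 2) / P := ⟨_, rfl⟩
  have hY0 : 0 < Y := by rw [hY]; positivity
  rw [← hY] at hy
  have hy0 : 0 < y := hY0.trans hy
  have hc1 := Nat.le_ceil (y / l)
  have hc2 := Nat.ceil_lt_add_one (show 0 ≤ y / l by positivity)
  rw [div_le_iff₀ hl0] at hc1
  have hk1a : y + Q * l ≤ k1 * l := by
    rw [hk1]
    push_cast
    rw [add_mul]
    linarith only [hc1]
  have hk1b : (k1 : ℝ) * l ≤ y + (Q + 1) * l := by
    have h1 : (k1 : ℝ) ≤ y / l + (Q + 1) := by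
      rw [hk1]
      push_cast
      linarith only [hc2]
    have h2 := mul_le_mul_of_nonneg_right h1 hl0.le
    have e : (y / l + ((Q : ℝ) + 1)) * l = y + (Q + 1) * l := by field_simp
    rw [e] at h2
    exact h2
  have hQl : 0 ≤ (Q : ℝ) * l := mul_nonneg (Nat.cast_nonneg _) hl0.le
  refine ⟨hk1a, hk1b, fun H hH1 hH2 => ?_⟩
  have hη2 : 0 < η ^ 2 := pow_pos hη 2
  have hPl : P * l / η ^ 2 = H₀ := by rw [hl, hh]; field_simp
  have hhP : h / (β * P) = 1 / (η * β) * l := by rw [hl]; field_simp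
  refine ⟨hP0, hβ, hη, hη1, hζ, hl0, ?_, ?_, ?_, hk1b, hQ, ?_, ?_⟩
  · rw [hl]; field_simp
  · rw [hPl]; exact hH1
  · rw [hhP]
    have : 1 / (η * β) * l ≤ Q * l := mul_le_mul_of_nonneg_right hQ0 hl0.le
    linarith only [this, hk1a]
  · have h1 : (1 + ζ) * (H / (β * P)) ≤ 2 * (H / (β * P)) := by
      apply mul_le_mul_of_nonneg_right (by linarith only [hζ1])
      have : 0 < H := lt_of_lt_of_le hH₀ hH1
      positivity
    have h2 : H / (β * P) ≤ X ^ (1 - ρ) / (β * P) := div_le_div_of_nonneg_right hH2 (by positivity)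
    have h3 : X ^ (1 - ρ) / (β * P) ≤ Y / 4 := by
      rw [hY, div_div, div_le_div_iff₀ (by positivity) (by positivity)]
      have e : X ^ (1 - ρ / 2) = X ^ (ρ / 2) * X ^ (1 - ρ) := by rw [← Real.rpow_add hX0]; congr 1; ring
      rw [e]
      have h4 : 4 / β * β ≤ X ^ (ρ / 2) * β := mul_le_mul_of_nonneg_right hX1 hβ.le
      have h5 : 4 / β * β = 4 := by field_simp
      rw [h5] at h4
      have h6 : 4 * (X ^ (1 - ρ) * P) ≤ X ^ (ρ / 2) * β * (X ^ (1 - ρ) * P) := mul_le_mul_of_nonneg_right h4 (by positivity)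
      have e1 : X ^ (1 - ρ) * (P * 4) = 4 * (X ^ (1 - ρ) * P) := by ring
      have e2 : X ^ (ρ / 2) * X ^ (1 - ρ) * (β * P) = X ^ (ρ / 2) * β * (X ^ (1 - ρ) * P) := by ring
      rw [e1, e2]
      exact h6
    linarith only [h1, h2, h3, hy]
  · have h1 : X ^ (1 - ρ / 2) ≤ P * y := by
      rw [hY, div_lt_iff₀ hP0] at hy
      linarith only [hy]
    have h2 : Real.exp (Real.log 2 * (1 + η) / η) ≤ β * P * y := by
      rw [div_le_iff₀ hβ] at hX2
      have h3 : X ^ (1 - ρ / 2) * β ≤ P * y * β := mul_le_mul_of_nonneg_right h1 hβ.le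
      have e : β * P * y = P * y * β := by ring
      rw [e]; linarith only [hX2, h3]
    have h3 : Real.log 2 * (1 + η) / η ≤ Real.log (β * P * y) := by
      rw [Real.le_log_iff_exp_le (by positivity)]
      exact h2
    rw [div_le_iff₀ hη] at h3
    linarith only [h3]

lemma pow_le_pow_add {x y : ℝ} (hx : 0 ≤ x) (hxy : x ≤ y) (hy : y ≤ 1) (n : ℕ) : y ^ n ≤ x ^ n + n * (y - x) := by
  induction n with
  | zero => simp
  | succ n ih =>
    have hy0 : 0 ≤ y := hx.trans hxy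
    have hx1 : x ^ n ≤ 1 := pow_le_one₀ hx (hxy.trans hy)
    have h1 : y ^ (n + 1) ≤ y * (x ^ n + n * (y - x)) := by
      rw [pow_succ']
      exact mul_le_mul_of_nonneg_left ih hy0
    have h2 : y * (n * (y - x)) ≤ n * (y - x) := mul_le_of_le_one_left (mul_nonneg (Nat.cast_nonneg _) (by linarith)) hy
    have h3 : x ^ n * (y - x) ≤ y - x := mul_le_of_le_one_left (by linarith) hx1
    push_cast
    have e : y * (x ^ n + n * (y - x)) = x ^ (n + 1) + x ^ n * (y - x) + y * (n * (y - x)) := by ring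
    rw [e] at h1
    linarith

open Classical in
/-- the facts at the net -/
theorem net_factsE (hU : St_U) (δ₀ : ℝ) (hcutP : CutP δ₀) (β δ η ε δ' : ℝ) (hβ : 0 < β) (hδ : 0 < δ) (hη : 0 < η) (hη1 : η ≤ 1 / 4)
    (hε : 0 < ε) (hδ' : 0 < δ') : ∀ᶠ X : ℝ in atTop, ∀ θ : ℝ, Real.log X ^ (-δ₀) ≤ θ → ∀ A : Finset ℕ, AdmI δ θ X A → (∀ a ∈ A, β * X ^ θ ≤ (a : ℝ)) →
    ∀ h l : ℝ, h = η * Real.log X ^ 22 → l = η * (h / X ^ θ) → ∀ K : ℕ, K = ⌊X / (η * h)⌋₊ →
    0 < h ∧ 0 < l ∧ Cut (Icc 1 K) A (fun (k a : ℕ) => ZH h (a * (k * l))) δ' ∧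
    ∑ k ∈ Icc 1 K, ∑ a ∈ A, (if 18 / 5 + ε < ZH h (a * (k * l)) then ZH h (a * (k * l)) else 0) ≤ δ' * ((Icc 1 K).card * A.card) := by
  have hev : ∀ᶠ X : ℝ in atTop, η * Real.log X ^ 22 ≤ X ^ (1 - 1 / 2 : ℝ) := by
    have h := (isLittleO_log_rpow_rpow_atTop (22 : ℝ) (show (0 : ℝ) < 1 - 1 / 2 by norm_num)).bound (show 0 < 1 / η by positivity)
    filter_upwards [h, eventually_ge_atTop 1] with X hX hX1
    have h1 := Real.log_nonneg hX1
    rw [Real.norm_eq_abs, Real.norm_eq_abs, abs_of_nonneg (by positivity), abs_of_nonneg (by positivity)] at hX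
    have e : Real.log X ^ (22 : ℝ) = Real.log X ^ (22 : ℕ) := by
      rw [← Real.rpow_natCast]; norm_num
    rw [e] at hX
    calc η * Real.log X ^ 22 ≤ η * (1 / η * X ^ (1 - 1 / 2 : ℝ)) := mul_le_mul_of_nonneg_left hX hη.le
      _ = X ^ (1 - 1 / 2 : ℝ) := by field_simp
  have hev2 : ∀ᶠ X : ℝ in atTop, 2 * (η * (η * Real.log X ^ 22)) ≤ X := by
    have h := (isLittleO_log_rpow_rpow_atTop (22 : ℝ) (show (0 : ℝ) < 1 by norm_num)).bound (show 0 < 1 / (2 * η * η) by positivity)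
    filter_upwards [h, eventually_ge_atTop 1] with X hX hX1
    have h1 := Real.log_nonneg hX1
    rw [Real.norm_eq_abs, Real.norm_eq_abs, abs_of_nonneg (by positivity), abs_of_nonneg (by positivity), Real.rpow_one] at hX
    have e : Real.log X ^ (22 : ℝ) = Real.log X ^ (22 : ℕ) := by
      rw [← Real.rpow_natCast]; norm_num
    rw [e] at hX
    calc 2 * (η * (η * Real.log X ^ 22)) = 2 * η * η * Real.log X ^ 22 := by ring
      _ ≤ 2 * η * η * (1 / (2 * η * η) * X) := mul_le_mul_of_nonneg_left hX (by positivity)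
      _ = X := by field_simp
  have hev3 : ∀ᶠ X : ℝ in atTop, 1 / η ≤ Real.log X ^ 21 :=
    ((tendsto_pow_atTop (by norm_num)).comp Real.tendsto_log_atTop).eventually_ge_atTop _
  filter_upwards [hcutP 1 (1 / 2) δ 12 δ' one_pos (by norm_num) hδ (by norm_num) hδ',
    trunc hU ε β (1 / 2) 12 δ' η hε hβ (by norm_num) (by norm_num) hδ' hη, hev, hev2, hev3, eventually_gt_atTop 1]
    with X g1 g2 g3 g4 g5 g6 θ hθ0 A hA hAβ h l hh hl K hK
  have hX0 : 0 < X := by linarith only [g6]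
  have hlog : 0 < Real.log X := Real.log_pos g6
  have hh0 : 0 < h := by rw [hh]; positivity
  have hXθ : 0 < X ^ θ := by positivity
  have hl0 : 0 < l := by rw [hl]; positivity
  have hhlog : 1 * Real.log X ≤ h := by
    rw [hh, one_mul]
    rw [div_le_iff₀ hη] at g5
    calc Real.log X = 1 * Real.log X := (one_mul _).symm
      _ ≤ (Real.log X ^ 21 * η) * Real.log X := mul_le_mul_of_nonneg_right g5 hlog.le
      _ = η * Real.log X ^ 22 := by ring
  have hhX : h ≤ X ^ (1 - 1 / 2 : ℝ) := by rw [hh]; exact g3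
  have hsp := net_spread X h θ η 1 hX0 hh0 hη (by linarith only [hη1]) (by linarith only [hη]) (by norm_num)
    (by rw [le_div_iff₀ (by positivity), hh]; exact g4)
  rw [one_mul, ← hK, ← hl] at hsp
  have hinj : Function.Injective (fun k : ℕ => (k : ℝ) * l) := by
    intro k k' h
    have h5 : (k : ℝ) * l = k' * l := h
    exact_mod_cast mul_right_cancel₀ hl0.ne' h5
  have hcut := g1 θ hθ0 h hhlog hhX A _ hA hsp
  have htr := g2 θ h (by rw [hh]) hhX A _ hA.1 hAβ hsp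
  refine ⟨hh0, hl0, (cut_image _ hinj hcut).swap, ?_⟩
  rw [card_image_of_injective _ hinj] at htr
  rw [sum_comm, mul_comm ((Icc 1 K).card : ℝ)]
  refine le_trans (le_of_eq ?_) htr
  apply sum_congr rfl
  intro a _
  rw [sum_image fun x _ y _ hxy => hinj hxy]

end Pool.Agent.K4H50.ED
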