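import Pool.Agent.K4H50.ED.B4

/-! Exponentially few exceptions. -/

set_option autoImplicit false

namespace Pool.Agent.K4H50.ED
open Finset Filter
open Pool.Agent.Y851.PS
open Pool.Agent.Y851.PT
open Pool.Agent.Y851.PU
open Pool.Agent.K4H50.VS
open Pool.Agent.R516 (St_U)
open MeasureTheory (volume measure_mono measure_union_le measure_biUnion_finset_le)

lemma vol_union (S : Finset ℕ) (f : ℕ → ℝ) (l : ℝ) : volume (⋃ k ∈ S, Set.Icc (f k) (f k + l)) ≤ ENNReal.ofReal (S.card * l) := by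
  refine (measure_biUnion_finset_le S _).trans (le_of_eq ?_)
  have h : ∀ k ∈ S, volume (Set.Icc (f k) (f k + l)) = ENNReal.ofReal l := by
    intro k _
    rw [Real.volume_Icc]
    congr 1; ring
  rw [sum_congr rfl h, sum_const, nsmul_eq_mul, ENNReal.ofReal_mul (Nat.cast_nonneg _), ENNReal.ofReal_natCast]

open Classical in
theorem main (hU : St_U) (δ₀ : ℝ) (hcutP : CutP δ₀) (β τ : ℝ) (hβ : 0 < β) (hβ1 : β ≤ 1)
    (hτ : 0 < τ) (hτ1 : τ ≤ 1) : ∃ C c : ℝ, 0 < C ∧ 0 < c ∧ ∀ (ρ : ℝ) (n : ℕ) (δ : ℝ), 0 < ρ → ρ ≤ 1 → 1 ≤ n → 0 < δ → δ ≤ 1 →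
    ∀ᶠ X : ℝ in atTop, ∀ θ : ℝ, Real.log X ^ (-δ₀) ≤ θ → ∀ A : Finset ℕ, AdmI δ θ X A → (∀ a ∈ A, β * X ^ θ ≤ (a : ℝ)) →
    (((Fintype.piFinset (fun _ : Fin n => A)).filter (fun a => ¬ (
      volume {y : ℝ | 0 < y ∧ y ≤ X ^ (1 - θ) ∧ ∀ j, PH (Real.log X ^ 22) (a j * y) = ∅} ≤
        ENNReal.ofReal (((13 / 18) ^ n + δ) * X ^ (1 - θ)) ∧
      volume {y : ℝ | 0 < y ∧ y ≤ X ^ (1 - θ) ∧ ∃ H : ℝ, Real.log X ^ 22 ≤ H ∧ H ≤ X ^ (1 - ρ) ∧
        τ * n < |∑ j, ZH H (a j * y) - n|} ≤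
        ENNReal.ofReal ((C * Real.exp (-(c * n)) + δ) * X ^ (1 - θ))))).card : ℝ) ≤ δ * (A.card : ℝ) ^ n := by
  obtain ⟨σ, hσ⟩ : ∃ σ, σ = τ / 4 := ⟨_, rfl⟩
  have hσ0 : 0 < σ := by rw [hσ]; positivity
  have hσ1 : σ ≤ 1 := by rw [hσ]; linarith
  obtain ⟨η, ζ, Q, hη, hη1, hζ, hζ1, hQ0, hQ, hQl, hF1, hF2, hF3⟩ := params β σ 1 hβ hβ1 hσ0 hσ1 one_pos
  obtain ⟨J, hJ⟩ : ∃ J, J = ⌊Real.log (1 / β) / Real.log (1 + η)⌋₊ + 1 := ⟨_, rfl⟩
  have hJ1 : (1 : ℝ) ≤ J := by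
    have : 1 ≤ J := by rw [hJ]; omega
    exact_mod_cast this
  have hJ0 : (0 : ℝ) < J := by linarith
  refine ⟨40 * J ^ 2 / σ, σ ^ 2 / (192 * J ^ 2), by positivity, by positivity, fun ρ n δ hρ hρ1 hn hδ hδ1 => ?_⟩
  have hn1 : (1 : ℝ) ≤ n := by exact_mod_cast hn
  have hn0 : (0 : ℝ) < n := by linarith
  -- parameters
  obtain ⟨εL, hεL⟩ : ∃ εL, εL = min (2 / 5) (δ / (4 * n)) := ⟨_, rfl⟩
  have hεL0 : 0 < εL := by rw [hεL]; exact lt_min (by norm_num) (by positivity)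
  have hεL1 : εL ≤ 2 / 5 := by rw [hεL]; exact min_le_left _ _
  have hεL2 : n * εL ≤ δ / 4 := by
    have : εL ≤ δ / (4 * n) := by rw [hεL]; exact min_le_right _ _
    calc n * εL ≤ n * (δ / (4 * n)) := by gcongr
      _ = δ / 4 := by field_simp
  obtain ⟨L, hL⟩ : ∃ L, L = 18 / 5 + εL := ⟨_, rfl⟩
  have hL0 : 0 < L := by rw [hL]; positivity
  have hL2 : 2 ≤ L := by rw [hL]; linarith
  have hL4 : L ≤ 4 := by rw [hL]; linarith
  have hLpow : (1 - 1 / L) ^ n ≤ (13 / 18) ^ n + δ / 4 := by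
    have h1 : 1 - 1 / L - 13 / 18 = 5 * εL / (18 * L) := by
      rw [hL]; field_simp; ring
    have h2 : 5 * εL / (18 * L) ≤ εL := by
      rw [div_le_iff₀ (by positivity)]
      have h7 : εL * 2 ≤ εL * L := mul_le_mul_of_nonneg_left hL2 hεL0.le
      linarith only [h7, hεL0]
    have h3 : 0 ≤ 5 * εL / (18 * L) := by positivity
    have h4 : 0 < 1 / L := by positivity
    have h5 := pow_le_pow_add (show (0 : ℝ) ≤ 13 / 18 by norm_num) (show (13 : ℝ) / 18 ≤ 1 - 1 / L by linarith) (by linarith) n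
    have h6 : (n : ℝ) * (1 - 1 / L - 13 / 18) ≤ n * εL := mul_le_mul_of_nonneg_left (by linarith) hn0.le
    linarith
  obtain ⟨s, hs⟩ : ∃ s, s = σ / (24 * J) := ⟨_, rfl⟩
  have hs0 : 0 < s := by rw [hs]; positivity
  have hs1 : s ≤ 1 / 24 := by
    rw [hs, div_le_div_iff₀ (by positivity) (by norm_num)]
    linarith only [hσ1, hJ1]
  obtain ⟨t, ht⟩ : ∃ t, t = σ * (n : ℝ) / (2 * J) := ⟨_, rfl⟩
  have ht0 : 0 < t := by rw [ht]; positivity
  have hexp : Real.exp (s ^ 2 * (L - 1) * n - s * (t / 2)) ≤ Real.exp (-(σ ^ 2 / (192 * J ^ 2) * n)) := by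
    apply Real.exp_le_exp.2
    have h1 : s ^ 2 * (L - 1) * n ≤ s ^ 2 * 3 * n := by
      have : L - 1 ≤ 3 := by linarith
      gcongr
    have h2 : s ^ 2 * 3 * n - s * (t / 2) = -(σ ^ 2 / (192 * J ^ 2) * n) := by
      rw [hs, ht]
      field_simp
      ring
    linarith
  obtain ⟨ε, hε⟩ : ∃ ε, ε = min (δ / 4) (σ * δ / (256 * J ^ 2)) := ⟨_, rfl⟩
  have hε0 : 0 < ε := by rw [hε]; exact lt_min (by positivity) (by positivity)
  have hε1 : ε ≤ δ / 4 := by rw [hε]; exact min_le_left _ _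
  have hε2 : 64 * J ^ 2 / σ * ε ≤ δ / 4 := by
    have : ε ≤ σ * δ / (256 * J ^ 2) := by rw [hε]; exact min_le_right _ _
    calc 64 * J ^ 2 / σ * ε ≤ 64 * J ^ 2 / σ * (σ * δ / (256 * J ^ 2)) := by gcongr
      _ = δ / 4 := by field_simp; norm_num
  obtain ⟨δ', hδ'⟩ : ∃ δ', δ' = δ * ε / ((2 * J + 2) * (4 * n * 3 ^ n)) := ⟨_, rfl⟩
  have hδ'0 : 0 < δ' := by rw [hδ']; positivity
  have hev1 : ∀ᶠ X : ℝ in atTop, 4 / β ≤ X ^ (ρ / 2) := (tendsto_rpow_atTop (half_pos hρ)).eventually_ge_atTop _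
  have hev2 : ∀ᶠ X : ℝ in atTop, Real.exp (Real.log 2 * (1 + η) / η) / β ≤ X ^ (1 - ρ / 2) :=
    (tendsto_rpow_atTop (show 0 < 1 - ρ / 2 by linarith only [hρ1])).eventually_ge_atTop _
  have hev3 : ∀ᶠ X : ℝ in atTop, 8 / δ ≤ X ^ (ρ / 2) := (tendsto_rpow_atTop (half_pos hρ)).eventually_ge_atTop _
  have hev4 : ∀ᶠ X : ℝ in atTop, ((Q : ℝ) + 1) * (η * (η * Real.log X ^ 22)) ≤ δ / 8 * X := by
    have h := (isLittleO_log_rpow_rpow_atTop (22 : ℝ) (show (0 : ℝ) < 1 by norm_num)).bound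
      (show 0 < δ / 8 / (((Q : ℝ) + 1) * η * η) by positivity)
    filter_upwards [h, eventually_ge_atTop 1] with X hX hX1
    have h1 := Real.log_nonneg hX1
    rw [Real.norm_eq_abs, Real.norm_eq_abs, abs_of_nonneg (by positivity), abs_of_nonneg (by positivity), Real.rpow_one] at hX
    have e : Real.log X ^ (22 : ℝ) = Real.log X ^ (22 : ℕ) := by
      rw [← Real.rpow_natCast]; norm_num
    rw [e] at hX
    calc ((Q : ℝ) + 1) * (η * (η * Real.log X ^ 22)) = ((Q : ℝ) + 1) * η * η * Real.log X ^ 22 := by ring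
      _ ≤ ((Q : ℝ) + 1) * η * η * (δ / 8 / (((Q : ℝ) + 1) * η * η) * X) := mul_le_mul_of_nonneg_left hX (by positivity)
      _ = δ / 8 * X := by field_simp
  filter_upwards [net_factsE hU δ₀ hcutP β δ η εL δ' hβ hδ hη hη1 hεL0 hδ'0, hev1, hev2, hev3, hev4, eventually_gt_atTop 1]
    with X h1 h2 h3 h4 h5 h6 θ hθ0 A hA hAβ
  have hX0 : 0 < X := by linarith only [h6]
  have hlog : 0 < Real.log X := Real.log_pos h6
  have hA0 := admI_pos hδ h6 hA
  obtain ⟨H₀, hH₀⟩ : ∃ H₀, H₀ = Real.log X ^ 22 := ⟨_, rfl⟩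
  have hH₀0 : 0 < H₀ := by rw [hH₀]; positivity
  obtain ⟨P, hP⟩ : ∃ P, P = X ^ θ := ⟨_, rfl⟩
  have hP0 : 0 < P := by rw [hP]; positivity
  obtain ⟨h, hh⟩ : ∃ h, h = η * H₀ := ⟨_, rfl⟩
  obtain ⟨l, hl⟩ : ∃ l, l = η * (h / P) := ⟨_, rfl⟩
  obtain ⟨K, hK⟩ : ∃ K : ℕ, K = ⌊X / (η * h)⌋₊ := ⟨_, rfl⟩
  obtain ⟨hh0, hl0, hcut, htr⟩ := h1 θ hθ0 A hA hAβ h l (by rw [hh, hH₀]) (by rw [hl, hP]) K hK
  obtain ⟨T, hT⟩ : ∃ T, T = X ^ (1 - θ) := ⟨_, rfl⟩
  have hTP : T = X / P := by rw [hT, hP, Real.rpow_sub hX0, Real.rpow_one]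
  have hTl : T = X / (η * h) * l := by rw [hTP, hl]; field_simp
  have hT0 : 0 < T := by rw [hTP]; positivity
  have hKl : (K : ℝ) * l ≤ T := by
    rw [hTl]
    apply mul_le_mul_of_nonneg_right _ hl0.le
    rw [hK]; exact Nat.floor_le (by positivity)
  have hcardK : ((Icc 1 K).card : ℝ) = K := by rw [Nat.card_Icc]; simp
  have hQlT : ((Q : ℝ) + 1) * l ≤ δ / 8 * T := by
    rw [hTP, hl, hh, hH₀]
    calc ((Q : ℝ) + 1) * (η * (η * Real.log X ^ 22 / P)) = ((Q : ℝ) + 1) * (η * (η * Real.log X ^ 22)) / P := by ring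
      _ ≤ δ / 8 * X / P := div_le_div_of_nonneg_right h5 hP0.le
      _ = δ / 8 * (X / P) := by ring
  have hlT : l ≤ δ / 8 * T := by
    have : 0 ≤ (Q : ℝ) * l := mul_nonneg (Nat.cast_nonneg _) hl0.le
    have e : ((Q : ℝ) + 1) * l = Q * l + l := by ring
    rw [e] at hQlT
    linarith
  obtain ⟨Y, hY⟩ : ∃ Y, Y = X ^ (1 - ρ / 2) / P := ⟨_, rfl⟩
  have hY0 : 0 < Y := by rw [hY]; positivity
  have hYT : Y ≤ δ / 8 * T := by
    rw [hY, hTP]
    have e : X ^ (ρ / 2) * X ^ (1 - ρ / 2) = X := by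
      rw [← Real.rpow_add hX0]
      have : ρ / 2 + (1 - ρ / 2) = 1 := by ring
      rw [this, Real.rpow_one]
    have h7 : 8 / δ * X ^ (1 - ρ / 2) ≤ X := by
      calc 8 / δ * X ^ (1 - ρ / 2) ≤ X ^ (ρ / 2) * X ^ (1 - ρ / 2) := mul_le_mul_of_nonneg_right h4 (by positivity)
        _ = X := e
    have h8 : X ^ (1 - ρ / 2) = δ / 8 * (8 / δ * X ^ (1 - ρ / 2)) := by field_simp
    calc X ^ (1 - ρ / 2) / P ≤ (δ / 8 * X) / P := by
          apply div_le_div_of_nonneg_right _ hP0.le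
          rw [h8]
          exact mul_le_mul_of_nonneg_left h7 (by positivity)
      _ = δ / 8 * (X / P) := by ring
  have hsL : s * (L - 1) ≤ 1 := by
    calc s * (L - 1) ≤ (1 / 24) * 3 := mul_le_mul hs1 (by linarith only [hL4]) (by linarith only [hL2]) (by norm_num)
      _ ≤ 1 := by norm_num
  have hgood := good n J L s (t / 2) ε δ' hL2 hs0.le (by linarith only [hs1]) hsL (half_pos ht0).le hε0 hδ'0.le (Icc 1 K) A
    (fun (k a : ℕ) => ZH h (a * (k * l))) (fun k _ a _ => ZH_nonneg hh0.le _) hcut (by rw [hL]; exact htr)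
    (fun a : ℕ => cls P β η (a : ℝ))
  have hcount : (2 * (J : ℝ) + 2) * (4 * n * 3 ^ n * δ') / ε * (A.card : ℝ) ^ n = δ * (A.card : ℝ) ^ n := by
    rw [hδ']; field_simp
  rw [hcount, hcardK] at hgood
  refine le_trans ?_ hgood
  apply Nat.cast_le.2
  apply card_le_card
  intro a ha
  rw [mem_filter] at ha ⊢
  refine ⟨ha.1, fun hg => ha.2 ?_⟩
  obtain ⟨hg1, hg2⟩ := hg
  have haA := (Fintype.mem_piFinset.1 ha.1)
  have haP : ∀ j, (a j : ℝ) ≤ P := fun j => by rw [hP]; exact (hA.1 _ (haA j)).2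
  have haβ : ∀ j, β * P ≤ (a j : ℝ) := fun j => by rw [hP]; exact hAβ _ (haA j)
  have haj0 : ∀ j, (0 : ℝ) < a j := fun j => lt_of_lt_of_le (by positivity) (haβ j)
  rw [← hT, ← hH₀]
  constructor
  · -- no primes
    obtain ⟨E₀, hE₀⟩ : ∃ E₀, E₀ = (Icc 1 K).filter (fun k => ∀ j, ZH h ((a j : ℕ) * ((k : ℕ) * l)) = 0) := ⟨_, rfl⟩
    rw [← hE₀] at hg1
    have hsub : {y : ℝ | 0 < y ∧ y ≤ T ∧ ∀ j, PH H₀ (a j * y) = ∅} ⊆ ⋃ k ∈ insert 0 E₀, Set.Icc ((k : ℕ) * l) (k * l + l) := by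
      intro y hy
      obtain ⟨hy0, hyT, hyE⟩ := hy
      obtain ⟨k, hk⟩ : ∃ k, k = ⌊y / l⌋₊ := ⟨_, rfl⟩
      have hk1 : (k : ℝ) * l ≤ y := by
        rw [← le_div_iff₀ hl0, hk]; exact Nat.floor_le (by positivity)
      have hk2 : y ≤ k * l + l := by
        have : y / l < k + 1 := by rw [hk]; exact Nat.lt_floor_add_one _
        rw [div_lt_iff₀ hl0] at this
        linarith
      rw [Set.mem_iUnion₂]
      refine ⟨k, ?_, hk1, hk2⟩
      rw [mem_insert]
      by_cases hk0 : k = 0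
      · exact Or.inl hk0
      · right
        rw [hE₀, mem_filter, mem_Icc]
        refine ⟨⟨by omega, ?_⟩, fun j => ?_⟩
        · rw [hk, hK]
          apply Nat.floor_mono
          rw [div_le_iff₀ hl0, ← hTl]
          exact hyT
        · have hkl0 : 0 ≤ (a j : ℝ) * (k * l) := by positivity
          have hPe : PH h (a j * (k * l)) = ∅ := by
            rw [eq_empty_iff_forall_notMem]
            intro p hp
            rw [mem_PH hkl0] at hp
            have hp2 : p ∈ PH H₀ (a j * y) := by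
              rw [mem_PH (mul_nonneg (haj0 j).le hy0.le)]
              have g1 : (a j : ℝ) * (k * l) ≤ a j * y := mul_le_mul_of_nonneg_left hk1 (haj0 j).le
              have g2 : (a j : ℝ) * y ≤ a j * (k * l + l) := mul_le_mul_of_nonneg_left hk2 (haj0 j).le
              have g3 : (a j : ℝ) * l ≤ η * h := by
                calc (a j : ℝ) * l ≤ P * l := mul_le_mul_of_nonneg_right (haP j) hl0.le
                  _ = η * h := by rw [hl]; field_simp
              have g4 : η * h + h ≤ H₀ := by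
                have e : η * h + h = (η * η + η) * H₀ := by rw [hh]; ring
                rw [e]
                have : η * η + η ≤ 1 := by
                  have g5 : η * η ≤ η * (1 / 4) := mul_le_mul_of_nonneg_left hη1 hη.le
                  linarith only [g5, hη1]
                calc (η * η + η) * H₀ ≤ 1 * H₀ := mul_le_mul_of_nonneg_right this hH₀0.le
                  _ = H₀ := one_mul _
              have e2 : (a j : ℝ) * (k * l + l) = a j * (k * l) + a j * l := by ring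
              rw [e2] at g2
              exact ⟨hp.1, by linarith [hp.2.1], by linarith [hp.2.2]⟩
            rw [hyE j] at hp2
            exact absurd hp2 (notMem_empty _)
          unfold ZH
          rw [hPe]
          simp
    refine (measure_mono hsub).trans ((vol_union _ (fun k => (k : ℕ) * l) l).trans (ENNReal.ofReal_le_ofReal ?_))
    have hc1 : ((insert 0 E₀).card : ℝ) ≤ E₀.card + 1 := by exact_mod_cast card_insert_le 0 E₀
    have hp0 : 0 ≤ (13 / 18 : ℝ) ^ n := by positivity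
    calc ((insert 0 E₀).card : ℝ) * l ≤ (E₀.card + 1) * l := mul_le_mul_of_nonneg_right hc1 hl0.le
      _ = E₀.card * l + l := by ring
      _ ≤ ((1 - 1 / L) ^ n + ε) * K * l + l := by
        have := mul_le_mul_of_nonneg_right hg1 hl0.le
        linarith
      _ ≤ ((13 / 18) ^ n + δ / 4 + δ / 4) * (K * l) + l := by
        have h7 : ((1 - 1 / L) ^ n + ε) * (K * l) ≤ ((13 / 18) ^ n + δ / 4 + δ / 4) * (K * l) :=
          mul_le_mul_of_nonneg_right (by linarith) (mul_nonneg (Nat.cast_nonneg _) hl0.le)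
        have e : ((1 - 1 / L) ^ n + ε) * (K : ℝ) * l = ((1 - 1 / L) ^ n + ε) * (K * l) := by ring
        rw [e]; linarith
      _ ≤ ((13 / 18) ^ n + δ / 4 + δ / 4) * T + δ / 8 * T := by
        have h7 : ((13 / 18) ^ n + δ / 4 + δ / 4) * (K * l) ≤ ((13 / 18) ^ n + δ / 4 + δ / 4) * T :=
          mul_le_mul_of_nonneg_left hKl (by positivity)
        linarith
      _ = ((13 / 18) ^ n + 5 / 8 * δ) * T := by ring
      _ ≤ ((13 / 18) ^ n + δ) * T := mul_le_mul_of_nonneg_right (by linarith only [hδ]) hT0.le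
  · -- large deviations
    obtain ⟨E, hE⟩ : ∃ E : ℕ → ℕ → ℝ, ∀ i k, E i k = |∑ j ∈ univ.filter (fun j => cls P β η ((a j : ℕ) : ℝ) = i), (ZH h (a j * (k * l)) - 1)| :=
      ⟨_, fun _ _ => rfl⟩
    obtain ⟨G, hG⟩ : ∃ G : ℕ → ℕ → ℝ, ∀ i k, G i k = if t / 2 ≤ E i k then E i k else 0 := ⟨_, fun _ _ => rfl⟩
    have hE0 : ∀ i k, 0 ≤ E i k := fun i k => by rw [hE]; exact abs_nonneg _
    have hG0 : ∀ i k, 0 ≤ G i k := fun i k => by
      rw [hG]; split_ifs
      · exact hE0 i k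
      · exact le_rfl
    have hEG : ∀ i k, E i k ≤ t / 2 + G i k := fun i k => by
      rw [hG]; split_ifs with hif
      · linarith
      · push Not at hif; linarith
    have hGsum : ∀ i < J, ∑ k ∈ Icc 1 K, G i k ≤ n * (10 * Real.exp (-(σ ^ 2 / (192 * J ^ 2) * n)) + 16 * ε) * K := by
      intro i hi
      have h7 := hg2 i hi
      rw [sum_filter] at h7
      have e : ∑ k ∈ Icc 1 K, G i k ≤ (n * (L + 1) * (2 * (Real.exp (s ^ 2 * (L - 1) * n - s * (t / 2)) + ε)) + (n * (L + 1) + 1) * ε) * K := by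
        refine le_trans (le_of_eq ?_) h7
        apply sum_congr rfl
        intro k _
        rw [hG, hE]
      refine e.trans ?_
      apply mul_le_mul_of_nonneg_right _ (Nat.cast_nonneg _)
      have g1 : n * (L + 1) ≤ n * 5 := mul_le_mul_of_nonneg_left (by linarith) hn0.le
      have g2 : 0 ≤ 2 * (Real.exp (s ^ 2 * (L - 1) * n - s * (t / 2)) + ε) := by positivity
      have g3 : n * (L + 1) * (2 * (Real.exp (s ^ 2 * (L - 1) * n - s * (t / 2)) + ε)) ≤
          n * 5 * (2 * (Real.exp (-(σ ^ 2 / (192 * J ^ 2) * n)) + ε)) := by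
        apply mul_le_mul g1 (by linarith) g2 (by positivity)
      have g4 : (n * (L + 1) + 1) * ε ≤ (n * 6) * ε := mul_le_mul_of_nonneg_right (by linarith) hε0.le
      calc _ ≤ n * 5 * (2 * (Real.exp (-(σ ^ 2 / (192 * J ^ 2) * n)) + ε)) + (n * 6) * ε := add_le_add g3 g4
        _ = _ := by ring
    have hLdG : ∀ i k, Ld (E i) t k → Ld (G i) (t / 2) k := by
      rintro i k ⟨m, hm1, hm2, hm3⟩
      refine ⟨m, hm1, hm2, ?_⟩
      have h7 : ∑ j ∈ Ioc (k - m) k, E i j ≤ ∑ j ∈ Ioc (k - m) k, (t / 2 + G i j) := sum_le_sum fun j _ => hEG i j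
      rw [sum_add_distrib, sum_const, Nat.card_Ioc, nsmul_eq_mul] at h7
      have e : k - (k - m) = m := by omega
      rw [e] at h7
      linarith
    obtain ⟨Bad, hBad⟩ : ∃ Bad : Finset ℕ, Bad = (range J).biUnion (fun i => (Icc 1 K).filter (Ld (E i) t)) := ⟨_, rfl⟩
    have hBadc : (Bad.card : ℝ) ≤ (40 * J ^ 2 / σ * Real.exp (-(σ ^ 2 / (192 * J ^ 2) * n)) + δ / 4) * K := by
      have g1 : (Bad.card : ℝ) ≤ ∑ i ∈ range J, (((Icc 1 K).filter (Ld (E i) t)).card : ℝ) := by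
        rw [hBad]; exact_mod_cast card_biUnion_le
      have g2 : ∀ i ∈ range J, (((Icc 1 K).filter (Ld (E i) t)).card : ℝ) ≤
          n * (10 * Real.exp (-(σ ^ 2 / (192 * J ^ 2) * n)) + 16 * ε) * K / (t / 2) := by
        intro i hi
        have g3 : (((Icc 1 K).filter (Ld (E i) t)).card : ℝ) ≤ (((Icc 1 K).filter (Ld (G i) (t / 2))).card : ℝ) := by
          apply Nat.cast_le.2
          apply card_le_card
          intro k hk
          rw [mem_filter] at hk ⊢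
          exact ⟨hk.1, hLdG i k hk.2⟩
        exact g3.trans (maximal (G i) (hG0 i) (t / 2) (by positivity) K _ (hGsum i (mem_range.1 hi)))
      refine g1.trans ((sum_le_sum g2).trans ?_)
      rw [sum_const, card_range, nsmul_eq_mul]
      have e : (J : ℝ) * (n * (10 * Real.exp (-(σ ^ 2 / (192 * J ^ 2) * n)) + 16 * ε) * K / (t / 2)) =
          (40 * J ^ 2 / σ * Real.exp (-(σ ^ 2 / (192 * J ^ 2) * n)) + 64 * J ^ 2 / σ * ε) * K := by
        rw [ht]; field_simp; ring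
      rw [e]
      exact mul_le_mul_of_nonneg_right (by linarith) (Nat.cast_nonneg _)
    have hsub : {y : ℝ | 0 < y ∧ y ≤ T ∧ ∃ H : ℝ, H₀ ≤ H ∧ H ≤ X ^ (1 - ρ) ∧ τ * n < |∑ j, ZH H (a j * y) - n|} ⊆
        (Set.Ioc 0 Y ∪ Set.Icc (T - (Q + 1) * l) T) ∪ ⋃ k ∈ Bad, Set.Icc (((k : ℕ) - Q - 1) * l) (((k : ℕ) - Q - 1) * l + l) := by
      rintro y ⟨hy0, hyT, H, hH1, hH2, hdev⟩
      by_cases hyY : y ≤ Y
      · exact Or.inl (Or.inl ⟨hy0, hyY⟩)
      by_cases hyT2 : T - (Q + 1) * l ≤ y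
      · exact Or.inl (Or.inr ⟨hyT2, hyT⟩)
      push Not at hyY hyT2
      right
      obtain ⟨k1, hk1⟩ : ∃ k1, k1 = ⌈y / l⌉₊ + Q := ⟨_, rfl⟩
      obtain ⟨hk1a, hk1b, hgeo⟩ := geo_pt (ρ := ρ) (β := β) (η := η) (ζ := ζ) (k1 := k1) (Q := Q) hX0 hP0 hH₀0 hβ hη hη1 hζ hζ1 hQ0 hQ h2 h3 hh hl
        (by rw [← hY]; exact hyY) hk1
      have hk1pos : 1 ≤ k1 := by
        have : 0 < ⌈y / l⌉₊ := Nat.ceil_pos.2 (by positivity)
        omega
      have hk1K : k1 ≤ K := by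
        rw [hK]
        apply Nat.le_floor
        have h7 : (k1 : ℝ) * l ≤ X / (η * h) * l := by
          rw [← hTl]; linarith
        exact le_of_mul_le_mul_right h7 hl0
      rw [Set.mem_iUnion₂]
      refine ⟨k1, ?_, ?_, ?_⟩
      · by_contra hcon
        rw [hBad, mem_biUnion] at hcon
        have hn1 : ∀ i < J, ¬ Ld (E i) t k1 := fun i hi hc =>
          hcon ⟨i, mem_range.2 hi, mem_filter.2 ⟨mem_Icc.2 ⟨hk1pos, hk1K⟩, hc⟩⟩
        have g := hgeo H hH1 hH2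
        have hm1 := family g (univ : Finset (Fin n)) (fun j => ((a j : ℕ) : ℝ)) σ t J hJ (fun j _ => haβ j) (fun j _ => haP j)
          ht0.le (by
          intro i hi m hm1 hm2
          have := not_Ld (hn1 i hi) hm1 hm2
          simp_rw [hE] at this
          exact this) hF1 hF2 hF3 hζ1
        rw [Finset.card_univ, Fintype.card_fin] at hm1
        have e1 : σ * (n : ℝ) + 2 * J * t = τ / 2 * n := by
          rw [ht, hσ]
          field_simp
          norm_num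
        rw [e1] at hm1
        have : 0 < τ * n := by positivity
        linarith
      · have e : ((k1 : ℝ) - Q - 1) * l = k1 * l - (Q + 1) * l := by ring
        rw [e]; linarith
      · have e : ((k1 : ℝ) - Q - 1) * l + l = k1 * l - Q * l := by ring
        rw [e]; linarith
    refine (measure_mono hsub).trans ?_
    refine (measure_union_le _ _).trans ?_
    have g1 : volume (Set.Ioc 0 Y ∪ Set.Icc (T - (Q + 1) * l) T) ≤ ENNReal.ofReal (δ / 8 * T + δ / 8 * T) := by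
      refine (measure_union_le _ _).trans ?_
      rw [Real.volume_Ioc, Real.volume_Icc, ← ENNReal.ofReal_add (by linarith) (by
        have : 0 ≤ ((Q : ℝ) + 1) * l := by positivity
        linarith)]
      apply ENNReal.ofReal_le_ofReal
      linarith
    have g2 := vol_union Bad (fun k => ((k : ℕ) - Q - 1) * l) l
    refine (add_le_add g1 g2).trans ?_
    rw [← ENNReal.ofReal_add (by positivity) (by positivity)]
    apply ENNReal.ofReal_le_ofReal
    have hexp0 := Real.exp_pos (-(σ ^ 2 / (192 * J ^ 2) * n))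
    have hC0 : 0 ≤ 40 * J ^ 2 / σ * Real.exp (-(σ ^ 2 / (192 * J ^ 2) * n)) + δ / 4 := by positivity
    have g3 : (Bad.card : ℝ) * l ≤ (40 * J ^ 2 / σ * Real.exp (-(σ ^ 2 / (192 * J ^ 2) * n)) + δ / 4) * T := by
      calc (Bad.card : ℝ) * l ≤ (40 * J ^ 2 / σ * Real.exp (-(σ ^ 2 / (192 * J ^ 2) * n)) + δ / 4) * K * l :=
            mul_le_mul_of_nonneg_right hBadc hl0.le
        _ = (40 * J ^ 2 / σ * Real.exp (-(σ ^ 2 / (192 * J ^ 2) * n)) + δ / 4) * (K * l) := by ring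
        _ ≤ _ := mul_le_mul_of_nonneg_left hKl hC0
    calc δ / 8 * T + δ / 8 * T + (Bad.card : ℝ) * l ≤ δ / 8 * T + δ / 8 * T +
          (40 * J ^ 2 / σ * Real.exp (-(σ ^ 2 / (192 * J ^ 2) * n)) + δ / 4) * T := by linarith only [g3]
      _ = (40 * J ^ 2 / σ * Real.exp (-(σ ^ 2 / (192 * J ^ 2) * n)) + δ / 2) * T := by ring
      _ ≤ _ := mul_le_mul_of_nonneg_right (by linarith only [hδ]) hT0.le

end Pool.Agent.K4H50.ED
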